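import Pool.Agent.V11226.ED.Lac
import Pool.Agent.V11226.SM.Dev

/-!
# Deviations for the digits of dilates
-/

set_option autoImplicit false

namespace Pool.Agent.V11226.ED

open Finset Pool.Agent.V11226.ETN

/-- The block of the `l` digits in base `b` of `x` after the first `J` digits after the point
is `w`. -/
def BlkR (b l w : ℕ) (x : ℝ) (J : ℕ) : Prop := ⌊(b : ℝ) ^ (J + l) * x⌋ % ((b ^ l : ℕ) : ℤ) = (w : ℤ)

theorem blkR_fract {b l w : ℕ} {x : ℝ} {J : ℕ} (hb : 2 ≤ b) (h : BlkR b l w x J) :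
    (w : ℝ) ≤ (b ^ l : ℕ) * Int.fract ((b : ℝ) ^ J * x) ∧
      (b ^ l : ℕ) * Int.fract ((b : ℝ) ^ J * x) < w + 1 := by
  unfold BlkR at h
  have hq : 0 < b ^ l := Nat.pow_pos (by omega)
  have h1 := Pool.Agent.V11226.SM.floor_mod (b ^ l) hq ((b : ℝ) ^ J * x)
  have h2 : ((b ^ l : ℕ) : ℝ) * ((b : ℝ) ^ J * x) = (b : ℝ) ^ (J + l) * x := by
    push_cast
    rw [pow_add]
    ring
  rw [h2, h] at h1
  have h3 : ⌊((b ^ l : ℕ) : ℝ) * Int.fract ((b : ℝ) ^ J * x)⌋₊ = w := by exact_mod_cast h1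
  have h4 : 0 ≤ ((b ^ l : ℕ) : ℝ) * Int.fract ((b : ℝ) ^ J * x) :=
    mul_nonneg (Nat.cast_nonneg _) (Int.fract_nonneg _)
  rw [Nat.floor_eq_iff h4] at h3
  exact h3

open Classical in
theorem devD (b l h : ℕ) (hb : 2 ≤ b) (hh : 0 < h) (η : ℝ) (hη : 0 < η) :
    ∃ m M : ℕ, 1 ≤ m ∧ ∃ κ τ : ℝ, 0 < κ ∧ 0 < τ ∧ ∀ (z : ℕ → ℕ) (k c0 L K : ℕ) (p : ℤ)
      (B : Finset ℕ) (α β : ℝ),
      (∀ i, z i < b ^ l) → 2 * M * b ^ (m * k + c0) < L → IsCoprime (L : ℤ) p →
      (∀ a ∈ B, a < L) → (∀ a ∈ B, (a : ℝ) * |α - p / L| * (b : ℝ) ^ (m * k + c0) ≤ τ) →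
      (∀ n, ((Fintype.piFinset (fun _ : Fin h => B)).filter (fun a => ∑ i, a i = n)).card ≤ K) →
      (∀ a ∈ B, (1 / (b : ℝ) ^ l + η) * k ≤
        ((univ : Finset (Fin k)).filter (fun s : Fin k =>
          BlkR b l (z (m * (s : ℕ) + c0)) ((a : ℝ) * α + β) (m * (s : ℕ) + c0))).card) →
      (B.card : ℝ) ^ h ≤ L * (h * K) * Real.exp (-(κ * k)) := by
  have hq : 0 < b ^ l := by positivity
  obtain ⟨M, hmaj⟩ := exists_majorant (b ^ l) hq (η / 4) (by positivity)
  choose c f μ Y hf hf0 hfY hc0 hμ0 hμ hf1 using hmaj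
  -- the spacing
  obtain ⟨m', hm'⟩ : ∃ m' : ℕ, 2 * M < b ^ m' := by
    obtain ⟨n, hn⟩ := pow_unbounded_of_one_lt (2 * M) (show 1 < b by omega)
    exact ⟨n, hn⟩
  set m := m' + l + 1 with hm
  have hM : 2 * M < b ^ m := lt_of_lt_of_le hm' (Nat.pow_le_pow_right (by omega) (by omega))
  set qs : ℝ := (2 * h : ℝ) / (2 * h - 1) with hqs
  have hh' : (1 : ℝ) ≤ h := by exact_mod_cast hh
  have hqs1 : 1 < qs := by rw [hqs, lt_div_iff₀ (by linarith)]; linarith
  set V : ℝ := ∑ w ∈ range (b ^ l), ∑ u ∈ (Icc (-(M : ℤ)) M).erase 0, ‖c w u‖ ^ qs with hV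
  have hVw0 : ∀ w, 0 ≤ ∑ u ∈ (Icc (-(M : ℤ)) M).erase 0, ‖c w u‖ ^ qs := fun w =>
    Finset.sum_nonneg fun u _ => Real.rpow_nonneg (norm_nonneg _) _
  have hVw : ∀ w < b ^ l, ∑ u ∈ (Icc (-(M : ℤ)) M).erase 0, ‖c w u‖ ^ qs ≤ V := fun w hw =>
    Finset.single_le_sum (f := fun w => ∑ u ∈ (Icc (-(M : ℤ)) M).erase 0, ‖c w u‖ ^ qs)
      (fun w _ => hVw0 w) (Finset.mem_range.2 hw)
  have hV0 : 0 ≤ V := Finset.sum_nonneg fun w _ => hVw0 w
  have hY0 : ∀ w, 0 ≤ Y w := fun w => (hf0 w 0).trans (hfY w 0)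
  set Z : ℝ := ∑ w ∈ range (b ^ l), (Y w + μ w) with hZ
  have hYμ : ∀ w, 0 ≤ Y w + μ w := fun w => add_nonneg (hY0 w) (hμ0 w)
  have hZ0 : 0 ≤ Z := Finset.sum_nonneg fun w _ => hYμ w
  have hZw : ∀ w < b ^ l, Y w + μ w ≤ Z := fun w hw =>
    Finset.single_le_sum (f := fun w => Y w + μ w) (fun w _ => hYμ w) (Finset.mem_range.2 hw)
  have hfz : ∀ w < b ^ l, ∀ t, |f w t - μ w| ≤ Z := by
    intro w hw t
    have h1 := hZw w hw
    rw [abs_le]
    constructor <;> linarith [hf0 w t, hfY w t, hY0 w, hμ0 w]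
  -- the choice of epsilon
  obtain ⟨ε, hε0, hεZ, hε1, hε2⟩ : ∃ ε : ℝ, 0 < ε ∧ ε * Z ≤ 1 / 2 ∧ 4 * h * ε * Z ^ 2 ≤ h * η / 4 ∧
      (2 * h - 1) * V * ε ^ (qs - 1) ≤ h * η / 4 := by
    have t1 : Filter.Tendsto (fun x : ℝ => x * Z) (nhdsWithin 0 (Set.Ioi 0)) (nhds (0 * Z)) :=
      (tendsto_nhdsWithin_of_tendsto_nhds Filter.tendsto_id).mul_const Z
    have t2 : Filter.Tendsto (fun x : ℝ => 4 * h * x * Z ^ 2) (nhdsWithin 0 (Set.Ioi 0))
        (nhds (4 * h * 0 * Z ^ 2)) :=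
      ((tendsto_nhdsWithin_of_tendsto_nhds Filter.tendsto_id).const_mul (4 * h : ℝ)).mul_const _
    have t3 : Filter.Tendsto (fun x : ℝ => (2 * h - 1) * V * x ^ (qs - 1))
        (nhdsWithin 0 (Set.Ioi 0)) (nhds ((2 * h - 1) * V * 0 ^ (qs - 1))) := by
      refine Filter.Tendsto.const_mul _ ?_
      exact tendsto_nhdsWithin_of_tendsto_nhds
        ((Real.continuousAt_rpow_const 0 (qs - 1) (Or.inr (by linarith))).tendsto)
    rw [zero_mul] at t1
    rw [mul_zero, zero_mul] at t2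
    rw [Real.zero_rpow (by linarith), mul_zero] at t3
    have e1 := t1.eventually (gt_mem_nhds (show (0 : ℝ) < 1 / 2 by norm_num))
    have e2 := t2.eventually (gt_mem_nhds (show (0 : ℝ) < h * η / 4 by positivity))
    have e3 := t3.eventually (gt_mem_nhds (show (0 : ℝ) < h * η / 4 by positivity))
    obtain ⟨ε, hε⟩ := (e1.and (e2.and (e3.and self_mem_nhdsWithin))).exists
    exact ⟨ε, hε.2.2.2, hε.1.le, hε.2.1.le, hε.2.2.1.le⟩
  have hεqs : 0 ≤ ε ^ qs := Real.rpow_nonneg hε0.le _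
  -- the Lipschitz constants
  set Λ : ℝ := ∑ w ∈ range (b ^ l), (∑ u ∈ Icc (-(M : ℤ)) M, ‖c w u‖) * (2 * Real.pi * M) with hΛ
  have hpi := Real.pi_pos
  have hΛw0 : ∀ w, 0 ≤ (∑ u ∈ Icc (-(M : ℤ)) M, ‖c w u‖) * (2 * Real.pi * M) := fun w =>
    mul_nonneg (Finset.sum_nonneg fun u _ => norm_nonneg _) (by positivity)
  have hΛ0 : 0 ≤ Λ := Finset.sum_nonneg fun w _ => hΛw0 w
  have hlip : ∀ w < b ^ l, ∀ t t', |f w t - f w t'| ≤ Λ * |t - t'| := by
    intro w hw t t'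
    have h1 := P_lip (c w) M t t'
    rw [← hf, ← hf, ← Complex.ofReal_sub, Complex.norm_real, Real.norm_eq_abs] at h1
    refine h1.trans (mul_le_mul_of_nonneg_right ?_ (abs_nonneg _))
    exact Finset.single_le_sum (f := fun w => (∑ u ∈ Icc (-(M : ℤ)) M, ‖c w u‖) * (2 * Real.pi * M))
      (fun w _ => hΛw0 w) (Finset.mem_range.2 hw)
  refine ⟨m, M, by omega, ε * h * η / 2, η / (8 * (Λ + 1)), by positivity, by positivity, ?_⟩
  intro z k c0 L K p B α β hz hL hp hBL happ hK hB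
  -- the polynomials `1 + ε (f - μ)`
  set c' : ℕ → ℤ → ℂ := fun w u => if u = 0 then 1 else (ε : ℂ) * c w u with hc'
  have hP : ∀ w t, P (c' w) M t = ((1 + ε * (f w t - μ w) : ℝ) : ℂ) := by
    intro w t
    have h1 : ∀ u ∈ Icc (-(M : ℤ)) M, c' w u * e ((u : ℝ) * t) =
        (ε : ℂ) * (c w u * e ((u : ℝ) * t)) + (if u = 0 then (1 - (ε : ℂ) * μ w) else 0) := by
      intro u _
      rw [hc']
      by_cases hu : u = 0
      · subst hu
        simp [hc0]
      · simp [hu]; ring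
    unfold P
    rw [Finset.sum_congr rfl h1, Finset.sum_add_distrib, ← Finset.mul_sum]
    rw [Finset.sum_ite_eq' (Icc (-(M : ℤ)) M) (0 : ℤ), if_pos (Finset.mem_Icc.2 ⟨by omega, by omega⟩)]
    have h2 := hf w t
    unfold P at h2
    rw [← h2]
    push_cast
    ring
  have hnorm : ∀ w < b ^ l, ∑ u ∈ Icc (-(M : ℤ)) M, ‖c' w u‖ ^ qs ≤ 1 + ε ^ qs * V := by
    intro w hw
    rw [← Finset.add_sum_erase _ _ (Finset.mem_Icc.2 ⟨by omega, by omega⟩ : (0 : ℤ) ∈ Icc (-(M : ℤ)) M)]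
    have h1 : ‖c' w 0‖ ^ qs = 1 := by simp [hc']
    rw [h1]
    have h0 : ∑ u ∈ (Icc (-(M : ℤ)) M).erase 0, ‖c' w u‖ ^ qs =
        ε ^ qs * ∑ u ∈ (Icc (-(M : ℤ)) M).erase 0, ‖c w u‖ ^ qs := by
      rw [Finset.mul_sum]
      refine Finset.sum_congr rfl fun u hu => ?_
      have h2 : u ≠ 0 := (Finset.mem_erase.1 hu).1
      have h3 : c' w u = (ε : ℂ) * c w u := by simp [hc', h2]
      rw [h3, norm_mul, Complex.norm_real, Real.norm_of_nonneg hε0.le,
        Real.mul_rpow hε0.le (norm_nonneg _)]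
    rw [h0]
    have h4 := mul_le_mul_of_nonneg_left (hVw w hw) hεqs
    linarith
  set zs : Fin k → ℕ := fun s => z (m * (s : ℕ) + c0) with hzs
  have hzs' : ∀ s, zs s < b ^ l := fun s => hz _
  have hlac := lacD (fun s : Fin k => c' (zs s)) M b m c0 h L p β hb (by omega) hh hM hL hp B
  rw [← hqs] at hlac
  have hmom := moment_le B h L K (by omega) hh hBL hK
  -- the lower bound for the sum
  set γ : ℝ := ε * η / 2 - 2 * ε ^ 2 * Z ^ 2 with hβ
  have hlow : (B.card : ℝ) * Real.exp (k * γ) ≤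
      ‖∑ a ∈ B, ∏ s : Fin k, P (c' (zs s)) M ((b : ℝ) ^ (m * (s : ℕ) + c0) * ((a : ℝ) * ((p : ℝ) / L) + β))‖ := by
    have h1 : ∑ a ∈ B, ∏ s : Fin k, P (c' (zs s)) M ((b : ℝ) ^ (m * (s : ℕ) + c0) * ((a : ℝ) * ((p : ℝ) / L) + β)) =
        ((∑ a ∈ B, ∏ s : Fin k,
          (1 + ε * (f (zs s) ((b : ℝ) ^ (m * (s : ℕ) + c0) * ((a : ℝ) * ((p : ℝ) / L) + β)) - μ (zs s))) : ℝ) : ℂ) := by
      rw [Complex.ofReal_sum]
      refine Finset.sum_congr rfl fun a _ => ?_
      rw [Complex.ofReal_prod]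
      exact Finset.prod_congr rfl fun s _ => hP _ _
    rw [h1, Complex.norm_real]
    refine le_trans ?_ (le_abs_self _)
    rw [← nsmul_eq_mul, ← Finset.sum_const]
    refine Finset.sum_le_sum fun a ha => ?_
    have h2 : ∀ w < b ^ l, ∀ t, Real.exp (ε * (f w t - μ w) - 2 * ε ^ 2 * Z ^ 2) ≤
        1 + ε * (f w t - μ w) := by
      intro w hw t
      have h3 : |ε * (f w t - μ w)| ≤ ε * Z := by
        rw [abs_mul, abs_of_pos hε0]
        exact mul_le_mul_of_nonneg_left (hfz w hw t) hε0.le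
      refine le_trans (Real.exp_le_exp.2 ?_) (exp_le_one_add (h3.trans hεZ))
      have h4 : (ε * (f w t - μ w)) ^ 2 ≤ (ε * Z) ^ 2 := by
        rw [← sq_abs]
        exact pow_le_pow_left₀ (abs_nonneg _) h3 2
      nlinarith
    calc Real.exp (k * γ) ≤ Real.exp (∑ s : Fin k,
          (ε * (f (zs s) ((b : ℝ) ^ (m * (s : ℕ) + c0) * ((a : ℝ) * ((p : ℝ) / L) + β)) - μ (zs s)) -
            2 * ε ^ 2 * Z ^ 2)) := by
          refine Real.exp_le_exp.2 ?_
          rw [Finset.sum_sub_distrib, ← Finset.mul_sum, Finset.sum_sub_distrib]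
          simp only [Finset.sum_const, Finset.card_univ, Fintype.card_fin, nsmul_eq_mul]
          have h3 : (((univ : Finset (Fin k)).filter (fun s : Fin k =>
              BlkR b l (z (m * (s : ℕ) + c0)) ((a : ℝ) * α + β) (m * (s : ℕ) + c0))).card : ℝ) ≤
              ∑ s : Fin k, f (zs s) ((b : ℝ) ^ (m * (s : ℕ) + c0) *
                ((a : ℝ) * ((p : ℝ) / L) + β)) + k * (η / 8) := by
            have h30 : (k : ℝ) * (η / 8) = ∑ _s : Fin k, η / 8 := by simp
            rw [Finset.card_filter, h30, ← Finset.sum_add_distrib]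
            push_cast
            refine Finset.sum_le_sum fun s _ => ?_
            split_ifs with h4
            · have h6 := blkR_fract hb h4
              have h7 := hf1 _ _ h6.1 h6.2
              have h8 := hlip (zs s) (hzs' s) ((b : ℝ) ^ (m * (s : ℕ) + c0) * ((a : ℝ) * α + β))
                ((b : ℝ) ^ (m * (s : ℕ) + c0) * ((a : ℝ) * ((p : ℝ) / L) + β))
              have h9 : |(b : ℝ) ^ (m * (s : ℕ) + c0) * ((a : ℝ) * α + β) -
                  (b : ℝ) ^ (m * (s : ℕ) + c0) * ((a : ℝ) * ((p : ℝ) / L) + β)| ≤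
                  η / (8 * (Λ + 1)) := by
                have e1 : (b : ℝ) ^ (m * (s : ℕ) + c0) * ((a : ℝ) * α + β) -
                  (b : ℝ) ^ (m * (s : ℕ) + c0) * ((a : ℝ) * ((p : ℝ) / L) + β) =
                  (b : ℝ) ^ (m * (s : ℕ) + c0) * (a * (α - p / L)) := by ring
                rw [e1, abs_mul, abs_mul, abs_of_nonneg (by positivity : (0 : ℝ) ≤ (b : ℝ) ^ (m * (s : ℕ) + c0)),
                  abs_of_nonneg (Nat.cast_nonneg a)]
                refine le_trans ?_ (happ a ha)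
                rw [mul_comm]
                refine mul_le_mul_of_nonneg_left ?_ (mul_nonneg (Nat.cast_nonneg _) (abs_nonneg _))
                have hb1 : (1 : ℝ) ≤ b := by
                  have : 1 ≤ b := by omega
                  exact_mod_cast this
                refine pow_le_pow_right₀ hb1 ?_
                have : m * (s : ℕ) ≤ m * k := Nat.mul_le_mul_left _ s.2.le
                omega
              have h10 : Λ * |(b : ℝ) ^ (m * (s : ℕ) + c0) * ((a : ℝ) * α + β) -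
                  (b : ℝ) ^ (m * (s : ℕ) + c0) * ((a : ℝ) * ((p : ℝ) / L) + β)| ≤ η / 8 := by
                refine (mul_le_mul_of_nonneg_left h9 hΛ0).trans ?_
                rw [← mul_div_assoc, div_le_div_iff₀ (by positivity) (by norm_num)]
                nlinarith
              have h11 := (abs_le.1 (h8.trans h10)).2
              have h12 : (1 : ℝ) ≤ f (zs s) ((b : ℝ) ^ (m * (s : ℕ) + c0) * ((a : ℝ) * α + β)) := h7
              linarith
            · have := hf0 (zs s) ((b : ℝ) ^ (m * (s : ℕ) + c0) * ((a : ℝ) * ((p : ℝ) / L) + β))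
              positivity
          have h4 := hB a ha
          have h5 : ∑ s : Fin k, μ (zs s) ≤ k * (1 / (b : ℝ) ^ l + η / 4) := by
            calc ∑ s : Fin k, μ (zs s) ≤ ∑ _s : Fin k, (1 / (b : ℝ) ^ l + η / 4) := by
                  refine Finset.sum_le_sum fun s _ => ?_
                  have := hμ (zs s)
                  push_cast at this
                  exact this
              _ = k * (1 / (b : ℝ) ^ l + η / 4) := by
                  rw [Finset.sum_const, Finset.card_univ, Fintype.card_fin, nsmul_eq_mul]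
          have h7 : η / 2 * k ≤ ∑ s : Fin k, f (zs s) ((b : ℝ) ^ (m * (s : ℕ) + c0) * ((a : ℝ) * ((p : ℝ) / L) + β)) -
              ∑ s : Fin k, μ (zs s) := by
            nlinarith
          have h8 := mul_le_mul_of_nonneg_left h7 hε0.le
          rw [hβ]
          nlinarith
      _ = ∏ s : Fin k, Real.exp
          (ε * (f (zs s) ((b : ℝ) ^ (m * (s : ℕ) + c0) * ((a : ℝ) * ((p : ℝ) / L) + β)) - μ (zs s)) -
            2 * ε ^ 2 * Z ^ 2) := by
          rw [Real.exp_sum]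
      _ ≤ _ := Finset.prod_le_prod (fun s _ => (Real.exp_pos _).le) fun s _ => h2 _ (hzs' s) _
  -- conclusion
  have h1 : ((B.card : ℝ) * Real.exp (k * γ)) ^ (2 * h) ≤
      ((1 + ε ^ qs * V) ^ k) ^ (2 * h - 1) * ((L : ℕ) * (h * K * (B.card : ℝ) ^ h)) := by
    refine (pow_le_pow_left₀ (by positivity) hlow _).trans (hlac.trans ?_)
    refine mul_le_mul ?_ hmom (Finset.sum_nonneg fun r _ => by positivity) (by positivity)
    refine pow_le_pow_left₀ (Finset.prod_nonneg fun s _ => Finset.sum_nonneg fun u _ =>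
      Real.rpow_nonneg (norm_nonneg _) _) ?_ _
    calc ∏ s : Fin k, ∑ u ∈ Icc (-(M : ℤ)) M, ‖c' (zs s) u‖ ^ qs ≤
        ∏ _s : Fin k, (1 + ε ^ qs * V) :=
          Finset.prod_le_prod (fun s _ => Finset.sum_nonneg fun u _ =>
            Real.rpow_nonneg (norm_nonneg _) _) fun s _ => hnorm _ (hzs' s)
      _ = (1 + ε ^ qs * V) ^ k := by simp
  have h2 : ((1 + ε ^ qs * V) ^ k) ^ (2 * h - 1) ≤ Real.exp ((2 * h - 1) * k * (ε ^ qs * V)) := by
    have h3 : 1 + ε ^ qs * V ≤ Real.exp (ε ^ qs * V) := by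
      have := Real.add_one_le_exp (ε ^ qs * V); linarith
    have h4 : 0 ≤ 1 + ε ^ qs * V := by positivity
    calc ((1 + ε ^ qs * V) ^ k) ^ (2 * h - 1) ≤ (Real.exp (ε ^ qs * V) ^ k) ^ (2 * h - 1) :=
          pow_le_pow_left₀ (pow_nonneg h4 _) (pow_le_pow_left₀ h4 h3 _) _
      _ = Real.exp ((2 * h - 1) * k * (ε ^ qs * V)) := by
          rw [← pow_mul, ← Real.exp_nat_mul]
          congr 1
          rw [Nat.cast_mul, Nat.cast_sub (by omega)]
          push_cast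
          ring
  rcases Nat.eq_zero_or_pos B.card with hz0 | hpos
  · rw [hz0]
    rw [Nat.cast_zero, zero_pow hh.ne']
    positivity
  · have hBpos : (0 : ℝ) < (B.card : ℝ) ^ h := by
      have : (0 : ℝ) < B.card := by exact_mod_cast hpos
      positivity
    have h3 : (B.card : ℝ) ^ h * (B.card : ℝ) ^ h * Real.exp (2 * h * (k * γ)) ≤
        Real.exp ((2 * h - 1) * k * (ε ^ qs * V)) * ((L : ℝ) * (h * K)) * (B.card : ℝ) ^ h := by
      have h4 : ((B.card : ℝ) * Real.exp (k * γ)) ^ (2 * h) =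
          (B.card : ℝ) ^ h * (B.card : ℝ) ^ h * Real.exp (2 * h * (k * γ)) := by
        rw [mul_pow, two_mul, pow_add, ← two_mul, ← Real.exp_nat_mul]
        push_cast
        ring_nf
      rw [← h4]
      refine h1.trans ?_
      calc _ ≤ Real.exp ((2 * h - 1) * k * (ε ^ qs * V)) *
            ((L : ℕ) * (h * K * (B.card : ℝ) ^ h)) :=
            mul_le_mul_of_nonneg_right h2 (by positivity)
        _ = _ := by ring
    have h4 : (B.card : ℝ) ^ h * Real.exp (2 * h * (k * γ)) ≤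
        Real.exp ((2 * h - 1) * k * (ε ^ qs * V)) * ((L : ℝ) * (h * K)) := by
      refine le_of_mul_le_mul_right ?_ hBpos
      calc (B.card : ℝ) ^ h * Real.exp (2 * h * (k * γ)) * (B.card : ℝ) ^ h =
          (B.card : ℝ) ^ h * (B.card : ℝ) ^ h * Real.exp (2 * h * (k * γ)) := by ring
        _ ≤ _ := h3
    have h5 : (B.card : ℝ) ^ h ≤ (L : ℝ) * (h * K) *
        Real.exp ((2 * h - 1) * k * (ε ^ qs * V) - 2 * h * (k * γ)) := by
      rw [Real.exp_sub, ← mul_div_assoc, le_div_iff₀ (Real.exp_pos _)]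
      refine h4.trans (le_of_eq ?_)
      ring
    refine h5.trans (mul_le_mul_of_nonneg_left (Real.exp_le_exp.2 ?_) (by positivity))
    have h6 : ε ^ qs = ε * ε ^ (qs - 1) := by
      rw [← Real.rpow_one_add' hε0.le (by linarith)]
      congr 1; ring
    have h7 : (2 * h - 1) * k * (ε ^ qs * V) ≤ k * ε * (h * η / 4) := by
      rw [h6]
      calc (2 * h - 1) * k * (ε * ε ^ (qs - 1) * V) = k * ε * ((2 * h - 1) * V * ε ^ (qs - 1)) := by
            ring
        _ ≤ k * ε * (h * η / 4) := mul_le_mul_of_nonneg_left hε2 (by positivity)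
    have h8 : (k : ℝ) * ε * (4 * h * ε * Z ^ 2) ≤ k * ε * (h * η / 4) :=
      mul_le_mul_of_nonneg_left hε1 (by positivity)
    rw [hβ]
    nlinarith

end Pool.Agent.V11226.ED
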