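import Pool.Agent.V11226.ED.Dev
import Pool.Agent.V11226.ETN.Normal

/-!
# Frequencies of blocks of digits of dilates
-/

set_option autoImplicit false

namespace Pool.Agent.V11226.ED

open Finset

open Classical in
/-- The number of positions `i < n` at which the block of `l` digits of `x` is `z i`. -/
noncomputable def agrR (b l : ℕ) (z : ℕ → ℕ) (n : ℕ) (x : ℝ) : ℕ :=
  ((range n).filter fun i => BlkR b l (z i) x i).card

open Classical in
theorem upperD (b l h : ℕ) (hb : 2 ≤ b) (hh : 0 < h) (η : ℝ) (hη : 0 < η) :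
    ∃ n0 D : ℕ, 1 ≤ n0 ∧ 1 ≤ D ∧ ∃ C κ τ : ℝ, 0 < C ∧ 0 < κ ∧ 0 < τ ∧ ∀ (z : ℕ → ℕ) (n L K : ℕ) (p : ℤ)
      (B : Finset ℕ) (α β : ℝ), (∀ i, z i < b ^ l) → n0 ≤ n → D * b ^ n < L → IsCoprime (L : ℤ) p →
      (∀ a ∈ B, a < L) → (∀ a ∈ B, (a : ℝ) * |α - p / L| * (b : ℝ) ^ n ≤ τ) →
      (∀ s, ((Fintype.piFinset (fun _ : Fin h => B)).filter (fun a => ∑ i, a i = s)).card ≤ K) →
      (∀ a ∈ B, (1 / (b : ℝ) ^ l + η) * n ≤ agrR b l z n ((a : ℝ) * α + β)) →
      (B.card : ℝ) ^ h ≤ C * K * (L * Real.exp (-(κ * n))) := by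
  obtain ⟨m, M, hm1, κ, τ, hκ, hτ, H⟩ := devD b l h hb hh (η / 2) (by positivity)
  have hm' : (1 : ℝ) ≤ m := by exact_mod_cast hm1
  have hb' : (2 : ℝ) ≤ b := by exact_mod_cast hb
  obtain ⟨n0, hn0⟩ := exists_nat_gt (2 * m / η)
  refine ⟨n0 + 1, 2 * M * b ^ m + 1, by omega, by omega, (m : ℝ) ^ h * h * Real.exp κ, κ / m,
    τ / (b : ℝ) ^ m, by positivity, by positivity, by positivity, ?_⟩
  intro z n L K p B α β hz hn hL hp hBL happ hK hfreq
  set k := n / m with hk
  have hkn : m * k ≤ n := Nat.mul_div_le n m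
  have hnk : n < m * k + m := by
    have := Nat.lt_mul_div_succ n (show 0 < m by omega)
    rw [mul_add, mul_one] at this
    exact this
  have hLpos : 0 < L := by omega
  let Bc : ℕ → Finset ℕ := fun c => B.filter (fun a => (1 / (b : ℝ) ^ l + η / 2) * k ≤
      ((univ : Finset (Fin k)).filter
        (fun s : Fin k => BlkR b l (z (m * (s : ℕ) + c)) ((a : ℝ) * α + β) (m * (s : ℕ) + c))).card)
  have hBc : ∀ c < m, ((Bc c).card : ℝ) ^ h ≤ (L : ℝ) * (h * K) * Real.exp (-(κ * k)) := by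
    intro c hc
    have hexp : b ^ (m * k + c) ≤ b ^ m * b ^ n := by
      rw [← pow_add]
      exact Nat.pow_le_pow_right (by omega) (by omega)
    refine H z k c L K p (Bc c) α β hz ?_ hp ?_ ?_ ?_ ?_
    · refine lt_of_le_of_lt ?_ hL
      calc 2 * M * b ^ (m * k + c) ≤ 2 * M * (b ^ m * b ^ n) := Nat.mul_le_mul_left _ hexp
        _ = 2 * M * b ^ m * b ^ n := by ring
        _ ≤ (2 * M * b ^ m + 1) * b ^ n := Nat.mul_le_mul_right _ (by omega)
    · intro a ha
      exact hBL a (Finset.mem_filter.1 ha).1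
    · intro a ha
      have h1 := happ a (Finset.mem_filter.1 ha).1
      rw [le_div_iff₀ (by positivity)] at h1
      refine le_trans ?_ h1
      rw [mul_assoc ((a : ℝ) * |α - p / L|)]
      refine mul_le_mul_of_nonneg_left ?_ (mul_nonneg (Nat.cast_nonneg _) (abs_nonneg _))
      have h2 : b ^ (m * k + c) ≤ b ^ n * b ^ m := hexp.trans (le_of_eq (mul_comm _ _))
      exact_mod_cast h2
    · intro s
      refine le_trans (Finset.card_le_card ?_) (hK s)
      intro a ha
      rw [Finset.mem_filter, Fintype.mem_piFinset] at ha ⊢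
      exact ⟨fun i => (Finset.mem_filter.1 (ha.1 i)).1, ha.2⟩
    · intro a ha
      exact (Finset.mem_filter.1 ha).2
  have hcover : B ⊆ (range m).biUnion Bc := by
    intro a ha
    rw [Finset.mem_biUnion]
    by_contra hno
    push Not at hno
    have h1 : ∀ c ∈ range m, (((univ : Finset (Fin k)).filter
        (fun s : Fin k => BlkR b l (z (m * (s : ℕ) + c)) ((a : ℝ) * α + β) (m * (s : ℕ) + c))).card : ℝ) ≤
        (1 / (b : ℝ) ^ l + η / 2) * k := by
      intro c hc
      by_contra h2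
      push Not at h2
      exact hno c hc (Finset.mem_filter.2 ⟨ha, h2.le⟩)
    have h2 : agrR b l z n ((a : ℝ) * α + β) ≤ m + ∑ c ∈ range m, ((univ : Finset (Fin k)).filter
        (fun s : Fin k => BlkR b l (z (m * (s : ℕ) + c)) ((a : ℝ) * α + β) (m * (s : ℕ) + c))).card := by
      unfold agrR
      have h3 : ((range n).filter fun i => BlkR b l (z i) ((a : ℝ) * α + β) i) ⊆
          ((range m).image (fun i => n - 1 - i)) ∪
          (range m).biUnion (fun c => ((univ : Finset (Fin k)).filter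
            (fun s : Fin k => BlkR b l (z (m * (s : ℕ) + c)) ((a : ℝ) * α + β) (m * (s : ℕ) + c))).image
              (fun s : Fin k => m * (s : ℕ) + c)) := by
        intro i hi
        rw [Finset.mem_filter, Finset.mem_range] at hi
        obtain ⟨hi1, hi2⟩ := hi
        rw [Finset.mem_union]
        by_cases h5 : n ≤ i + m
        · refine Or.inl (Finset.mem_image.2 ⟨n - 1 - i, Finset.mem_range.2 (by omega), ?_⟩)
          omega
        right
        rw [Finset.mem_biUnion]
        have hJ2 : i < m * k := by omega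
        refine ⟨i % m, Finset.mem_range.2 (Nat.mod_lt _ (by omega)), ?_⟩
        rw [Finset.mem_image]
        have hdiv : m * (i / m) + i % m = i := Nat.div_add_mod _ _
        have hdiv2 : i / m < k := by
          rw [Nat.div_lt_iff_lt_mul (by omega)]
          calc i < m * k := hJ2
            _ = k * m := by ring
        refine ⟨⟨i / m, hdiv2⟩, ?_, ?_⟩
        · rw [Finset.mem_filter]
          refine ⟨Finset.mem_univ _, ?_⟩
          simp only [hdiv]
          exact hi2
        · simp only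
          exact hdiv
      refine (Finset.card_le_card h3).trans ((Finset.card_union_le _ _).trans ?_)
      refine Nat.add_le_add ?_ ?_
      · exact Finset.card_image_le.trans (by rw [Finset.card_range])
      · refine Finset.card_biUnion_le.trans (Finset.sum_le_sum fun c _ => ?_)
        exact Finset.card_image_le
    have h3 : (agrR b l z n ((a : ℝ) * α + β) : ℝ) ≤ m + m * ((1 / (b : ℝ) ^ l + η / 2) * k) := by
      calc (agrR b l z n ((a : ℝ) * α + β) : ℝ) ≤ ((m + ∑ c ∈ range m, ((univ : Finset (Fin k)).filter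
        (fun s : Fin k => BlkR b l (z (m * (s : ℕ) + c)) ((a : ℝ) * α + β) (m * (s : ℕ) + c))).card : ℕ) : ℝ) := by
            exact_mod_cast h2
        _ = m + ∑ c ∈ range m, (((univ : Finset (Fin k)).filter
        (fun s : Fin k => BlkR b l (z (m * (s : ℕ) + c)) ((a : ℝ) * α + β) (m * (s : ℕ) + c))).card : ℝ) := by push_cast; ring
        _ ≤ m + ∑ _c ∈ range m, ((1 / (b : ℝ) ^ l + η / 2) * k) := by
            have := Finset.sum_le_sum h1
            linarith
        _ = _ := by rw [Finset.sum_const, Finset.card_range, nsmul_eq_mul]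
    have h4 : (m : ℝ) * k ≤ n := by exact_mod_cast hkn
    have h5 : (m : ℝ) * ((1 / (b : ℝ) ^ l + η / 2) * k) ≤ (1 / (b : ℝ) ^ l + η / 2) * n := by
      calc (m : ℝ) * ((1 / (b : ℝ) ^ l + η / 2) * k) = (1 / (b : ℝ) ^ l + η / 2) * (m * k) := by
            ring
        _ ≤ _ := mul_le_mul_of_nonneg_left h4 (by positivity)
    have h6 := hfreq a ha
    have h7 : (n0 : ℝ) + 1 ≤ n := by exact_mod_cast hn
    have h8 : 2 * m / η < n := by linarith
    rw [div_lt_iff₀ hη] at h8
    nlinarith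
  obtain ⟨c, hc, hcB⟩ : ∃ c < m, B.card ≤ m * (Bc c).card := by
    by_contra hno
    push Not at hno
    have h1 := (Finset.card_le_card hcover).trans Finset.card_biUnion_le
    have h2 : m * B.card ≤ m * ∑ c ∈ range m, (Bc c).card := Nat.mul_le_mul_left _ h1
    rw [Finset.mul_sum] at h2
    have h3 : ∑ c ∈ range m, m * (Bc c).card < ∑ _c ∈ range m, B.card := by
      refine Finset.sum_lt_sum_of_nonempty ⟨0, Finset.mem_range.2 (by omega)⟩ ?_
      intro c hc
      exact hno c (Finset.mem_range.1 hc)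
    rw [Finset.sum_const, Finset.card_range, smul_eq_mul] at h3
    omega
  have h1 := hBc c hc
  have h2 : (B.card : ℝ) ^ h ≤ (m : ℝ) ^ h * ((L : ℝ) * (h * K) * Real.exp (-(κ * k))) := by
    calc (B.card : ℝ) ^ h ≤ ((m : ℝ) * (Bc c).card) ^ h := by
          refine pow_le_pow_left₀ (by positivity) ?_ _
          exact_mod_cast hcB
      _ = (m : ℝ) ^ h * ((Bc c).card : ℝ) ^ h := by rw [mul_pow]
      _ ≤ _ := mul_le_mul_of_nonneg_left h1 (by positivity)
  have h3 : Real.exp (-(κ * k)) ≤ Real.exp κ * Real.exp (-(κ / m * n)) := by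
    rw [← Real.exp_add]
    refine Real.exp_le_exp.2 ?_
    have h4 : (n : ℝ) ≤ m * k + m := by exact_mod_cast hnk.le
    have h5 : κ / m * n ≤ κ / m * (m * k + m) := mul_le_mul_of_nonneg_left h4 (by positivity)
    have h6 : κ / m * (m * k + m) = κ * k + κ := by field_simp
    linarith
  calc (B.card : ℝ) ^ h ≤ (m : ℝ) ^ h * ((L : ℝ) * (h * K) *
          (Real.exp κ * Real.exp (-(κ / m * n)))) := by
          refine h2.trans ?_
          refine mul_le_mul_of_nonneg_left ?_ (by positivity)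
          exact mul_le_mul_of_nonneg_left h3 (by positivity)
    _ = (m : ℝ) ^ h * h * Real.exp κ * K * (L * Real.exp (-(κ / m * n))) := by ring

open Classical in
theorem exists_upperG (b l n : ℕ) (hb : 2 ≤ b) (hn : 1 ≤ n) (η : ℝ) (hη : 0 < η) (z : ℕ → ℕ)
    (hz : ∀ i, z i < b ^ l) (x : ℝ)
    (h : η < |(agrR b l z n x : ℝ) / n - 1 / (b : ℝ) ^ l|) :
    ∃ j < b ^ l, (1 / (b : ℝ) ^ l + η / (b : ℝ) ^ l) * n ≤
      agrR b l (Pool.Agent.V11226.ETN.shift (b ^ l) z j) n x := by
  have hn' : (0 : ℝ) < n := by exact_mod_cast hn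
  have hb' : (1 : ℝ) ≤ b := by
    have : 1 ≤ b := by omega
    exact_mod_cast this
  have hq0 : 0 < b ^ l := by positivity
  have hq : (1 : ℝ) ≤ (b : ℝ) ^ l := one_le_pow₀ hb'
  have hηq : η / (b : ℝ) ^ l ≤ η := div_le_self hη.le hq
  set g : ℕ → ℕ := fun i => (⌊(b : ℝ) ^ (i + l) * x⌋ % ((b ^ l : ℕ) : ℤ)).toNat with hg
  have hqz : ((b ^ l : ℕ) : ℤ) ≠ 0 := by exact_mod_cast hq0.ne'
  have hqz' : (0 : ℤ) < ((b ^ l : ℕ) : ℤ) := by exact_mod_cast hq0
  have hgc : ∀ i, ((g i : ℕ) : ℤ) = ⌊(b : ℝ) ^ (i + l) * x⌋ % ((b ^ l : ℕ) : ℤ) := fun i =>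
    Int.toNat_of_nonneg (Int.emod_nonneg _ hqz)
  have hgq : ∀ i, g i < b ^ l := by
    intro i
    have h1 := Int.emod_lt_of_pos ⌊(b : ℝ) ^ (i + l) * x⌋ hqz'
    rw [← hgc i] at h1
    exact_mod_cast h1
  have hiff : ∀ w i, BlkR b l w x i ↔ g i = w := by
    intro w i
    unfold BlkR
    rw [← hgc i]
    exact Nat.cast_inj
  have hagr : ∀ z' : ℕ → ℕ, agrR b l z' n x = ((range n).filter fun i => g i = z' i).card := by
    intro z'
    unfold agrR
    refine congrArg Finset.card ?_
    exact Finset.filter_congr fun i _ => hiff _ _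
  have hsum : ∑ j ∈ range (b ^ l), agrR b l (Pool.Agent.V11226.ETN.shift (b ^ l) z j) n x = n := by
    have h1 := Finset.card_eq_sum_card_fiberwise (s := range n) (t := range (b ^ l))
      (f := fun i => (g i + (b ^ l - z i)) % b ^ l) (fun i _ => by
        simp only [Finset.coe_range, Set.mem_Iio]
        exact Nat.mod_lt _ hq0)
    rw [Finset.card_range] at h1
    refine Eq.trans ?_ h1.symm
    refine Finset.sum_congr rfl fun j hj => ?_
    rw [hagr]
    unfold Pool.Agent.V11226.ETN.shift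
    refine congrArg Finset.card ?_
    ext i
    simp only [Finset.mem_filter]
    exact and_congr_right fun _ =>
      (Pool.Agent.V11226.ETN.mod_iff (hgq i) (hz i) (Finset.mem_range.1 hj)).symm
  have hz0 : agrR b l (Pool.Agent.V11226.ETN.shift (b ^ l) z 0) n x = agrR b l z n x := by
    rw [hagr, hagr]
    unfold Pool.Agent.V11226.ETN.shift
    congr 1
    refine Finset.filter_congr fun i _ => ?_
    rw [add_zero, Nat.mod_eq_of_lt (hz i)]
  rcases lt_abs.1 h with h1 | h1
  · refine ⟨0, hq0, ?_⟩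
    rw [hz0]
    have h2 : 1 / (b : ℝ) ^ l + η / (b : ℝ) ^ l ≤ (agrR b l z n x : ℝ) / n := by linarith
    rw [le_div_iff₀ hn'] at h2
    exact h2
  · by_contra hno
    push Not at hno
    have h2 : (agrR b l z n x : ℝ) / n < 1 / (b : ℝ) ^ l - η := by linarith
    rw [div_lt_iff₀ hn'] at h2
    have h3 : ((∑ j ∈ range (b ^ l), agrR b l (Pool.Agent.V11226.ETN.shift (b ^ l) z j) n x : ℕ) : ℝ) = n := by
      rw [hsum]
    rw [← Finset.add_sum_erase _ _ (Finset.mem_range.2 hq0)] at h3
    push_cast at h3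
    rw [hz0] at h3
    have h4 : ∑ j ∈ (range (b ^ l)).erase 0, (agrR b l (Pool.Agent.V11226.ETN.shift (b ^ l) z j) n x : ℝ) ≤
        ∑ _j ∈ (range (b ^ l)).erase 0, (1 / (b : ℝ) ^ l + η / (b : ℝ) ^ l) * n :=
      Finset.sum_le_sum fun w' hw' =>
        (hno w' (Finset.mem_range.1 (Finset.mem_erase.1 hw').2)).le
    rw [Finset.sum_const, Finset.card_erase_of_mem (Finset.mem_range.2 hq0), Finset.card_range,
      nsmul_eq_mul, Nat.cast_sub (by omega)] at h4
    push_cast at h4
    have hq1 : (b : ℝ) ^ l ≠ 0 := by positivity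
    have h5 : ((b : ℝ) ^ l - 1) * ((1 / (b : ℝ) ^ l + η / (b : ℝ) ^ l) * n) =
        n - (1 / (b : ℝ) ^ l) * n + (η - η / (b : ℝ) ^ l) * n := by
      field_simp
    rw [h5] at h4
    have h6 : 0 < η / (b : ℝ) ^ l * n := by positivity
    nlinarith

end Pool.Agent.V11226.ED
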