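import Pool.Agent.V11226.ETN.Dev

/-!
# Products of trigonometric polynomials at dilated points
-/

set_option autoImplicit false

namespace Pool.Agent.V11226.ED

open Finset Pool.Agent.V11226.ETN

theorem lac_inj2 (b m M : ℕ) (hb : 2 ≤ b) (hM : 2 * M < b ^ m) :
    ∀ (k : ℕ) (v : Fin k → ℤ), (∀ s, |v s| ≤ 2 * M) →
      ∑ s : Fin k, v s * (b : ℤ) ^ (m * (s : ℕ)) = 0 → ∀ s, v s = 0 := by
  intro k
  induction k with
  | zero => intro v _ _ s; exact s.elim0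
  | succ k ih =>
    intro v hv h0
    have hb0 : (b : ℤ) ^ m ≠ 0 := by
      have : (b : ℤ) ≠ 0 := by omega
      exact pow_ne_zero _ this
    rw [Fin.sum_univ_succ] at h0
    simp only [Fin.val_zero, mul_zero, pow_zero, mul_one, Fin.val_succ] at h0
    have h1 : ∑ s : Fin k, v s.succ * (b : ℤ) ^ (m * ((s : ℕ) + 1)) =
        (b : ℤ) ^ m * ∑ s : Fin k, v s.succ * (b : ℤ) ^ (m * (s : ℕ)) := by
      rw [mul_sum]
      refine sum_congr rfl fun s _ => ?_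
      rw [mul_add, mul_one, pow_add]
      ring
    rw [h1] at h0
    have h2 : (b : ℤ) ^ m ∣ v 0 := by
      refine ⟨-∑ s : Fin k, v s.succ * (b : ℤ) ^ (m * (s : ℕ)), ?_⟩
      rw [mul_neg]
      omega
    have h3 : v 0 = 0 := by
      refine Int.eq_zero_of_abs_lt_dvd h2 ?_
      refine lt_of_le_of_lt (hv _) ?_
      exact_mod_cast hM
    rw [h3, zero_add] at h0
    have h4 := (mul_eq_zero.1 h0).resolve_left hb0
    have h5 := ih (fun s => v s.succ) (fun s => hv _) h4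
    intro s
    refine Fin.cases h3 (fun s => h5 s) s

theorem geo (b m c0 : ℕ) (hb : 2 ≤ b) (hm : 1 ≤ m) (k : ℕ) :
    ∑ s : Fin k, b ^ (m * (s : ℕ) + c0) ≤ b ^ (m * k + c0) := by
  induction k with
  | zero => simp
  | succ k ih =>
    rw [Fin.sum_univ_castSucc]
    simp only [Fin.val_castSucc, Fin.val_last]
    calc ∑ s : Fin k, b ^ (m * (s : ℕ) + c0) + b ^ (m * k + c0) ≤
          b ^ (m * k + c0) + b ^ (m * k + c0) := Nat.add_le_add_right ih _
      _ = 2 * b ^ (m * k + c0) := by ring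
      _ ≤ b * b ^ (m * k + c0) := Nat.mul_le_mul_right _ hb
      _ = b ^ (m * k + c0 + 1) := by rw [pow_succ']
      _ ≤ b ^ (m * (k + 1) + c0) := Nat.pow_le_pow_right (by omega) (by
          have : m * (k + 1) = m * k + m := by ring
          omega)

/-- The integer frequency. -/
def Th (b m c0 k : ℕ) (u : Fin k → ℤ) : ℤ := ∑ s : Fin k, u s * (b : ℤ) ^ (m * (s : ℕ) + c0)

theorem Th_sub (b m c0 k : ℕ) (u u' : Fin k → ℤ) :
    Th b m c0 k u - Th b m c0 k u' = Th b m c0 k (fun s => u s - u' s) := by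
  unfold Th
  rw [← sum_sub_distrib]
  exact sum_congr rfl fun s _ => by ring

theorem Th_abs (b m c0 k M : ℕ) (hb : 2 ≤ b) (hm : 1 ≤ m) (v : Fin k → ℤ)
    (hv : ∀ s, |v s| ≤ 2 * M) : |Th b m c0 k v| ≤ 2 * M * (b : ℤ) ^ (m * k + c0) := by
  unfold Th
  refine (abs_sum_le_sum_abs _ _).trans ?_
  have h1 : ∀ s ∈ (univ : Finset (Fin k)), |v s * (b : ℤ) ^ (m * (s : ℕ) + c0)| ≤
      2 * M * (b : ℤ) ^ (m * (s : ℕ) + c0) := by
    intro s _
    rw [abs_mul, abs_of_nonneg (by positivity : (0 : ℤ) ≤ (b : ℤ) ^ (m * (s : ℕ) + c0))]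
    exact mul_le_mul_of_nonneg_right (hv s) (by positivity)
  refine (sum_le_sum h1).trans ?_
  rw [← mul_sum]
  refine mul_le_mul_of_nonneg_left ?_ (by positivity)
  exact_mod_cast geo b m c0 hb hm k

theorem Th_inj (b m c0 k M : ℕ) (hb : 2 ≤ b) (hM : 2 * M < b ^ m) (v : Fin k → ℤ)
    (hv : ∀ s, |v s| ≤ 2 * M) (h : Th b m c0 k v = 0) : ∀ s, v s = 0 := by
  refine lac_inj2 b m M hb hM k v hv ?_
  have hb0 : (b : ℤ) ^ c0 ≠ 0 := by
    have : (b : ℤ) ≠ 0 := by omega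
    exact pow_ne_zero _ this
  have h1 : Th b m c0 k v = (b : ℤ) ^ c0 * ∑ s : Fin k, v s * (b : ℤ) ^ (m * (s : ℕ)) := by
    unfold Th
    rw [mul_sum]
    refine sum_congr rfl fun s _ => ?_
    rw [pow_add]; ring
  rw [h1] at h
  exact (mul_eq_zero.1 h).resolve_left hb0

/-- The main inequality. -/
theorem lacD {k : ℕ} (c : Fin k → ℤ → ℂ) (M b m c0 h L : ℕ) (p : ℤ) (β : ℝ) (hb : 2 ≤ b)
    (hm : 1 ≤ m) (hh : 0 < h) (hM : 2 * M < b ^ m) (hL : 2 * M * b ^ (m * k + c0) < L)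
    (hp : IsCoprime (L : ℤ) p) (B : Finset ℕ) :
    ‖∑ a ∈ B, ∏ s : Fin k,
        P (c s) M ((b : ℝ) ^ (m * (s : ℕ) + c0) * ((a : ℝ) * ((p : ℝ) / L) + β))‖ ^ (2 * h) ≤
      (∏ s : Fin k, ∑ u ∈ Icc (-(M : ℤ)) M, ‖c s u‖ ^ ((2 * h : ℝ) / (2 * h - 1))) ^ (2 * h - 1) *
        ∑ r ∈ range L, ‖F B ((r : ℝ) / L)‖ ^ (2 * h) := by
  set V := Fintype.piFinset (fun _ : Fin k => Icc (-(M : ℤ)) M) with hV
  have hL0 : 0 < L := by omega
  have hLR : (L : ℝ) ≠ 0 := by exact_mod_cast hL0.ne'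
  have h1 : ∑ a ∈ B, ∏ s : Fin k,
        P (c s) M ((b : ℝ) ^ (m * (s : ℕ) + c0) * ((a : ℝ) * ((p : ℝ) / L) + β)) =
      ∑ u ∈ V, ((∏ s, c s (u s)) * e ((Th b m c0 k u : ℝ) * β)) *
        F B (((p * Th b m c0 k u : ℤ) : ℝ) / L) := by
    have h2 : ∀ a ∈ B, ∏ s : Fin k,
        P (c s) M ((b : ℝ) ^ (m * (s : ℕ) + c0) * ((a : ℝ) * ((p : ℝ) / L) + β)) =
        ∑ u ∈ V, ((∏ s, c s (u s)) * e ((Th b m c0 k u : ℝ) * β)) *
          e ((a : ℝ) * (((p * Th b m c0 k u : ℤ) : ℝ) / L)) := by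
      intro a _
      unfold P
      rw [Finset.prod_univ_sum]
      refine Finset.sum_congr rfl fun u _ => ?_
      rw [Finset.prod_mul_distrib, e_sum, mul_assoc, ← e_add]
      congr 2
      unfold Th
      push_cast
      rw [mul_sum, sum_div, mul_sum, sum_mul, ← sum_add_distrib]
      refine sum_congr rfl fun s _ => ?_
      ring
    rw [sum_congr rfl h2, sum_comm]
    refine sum_congr rfl fun u _ => ?_
    rw [← mul_sum]
    rfl
  have h2 : ‖∑ u ∈ V, ((∏ s, c s (u s)) * e ((Th b m c0 k u : ℝ) * β)) *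
        F B (((p * Th b m c0 k u : ℤ) : ℝ) / L)‖ ≤
      ∑ u ∈ V, (∏ s, ‖c s (u s)‖) * ‖F B (((p * Th b m c0 k u : ℤ) : ℝ) / L)‖ := by
    refine (norm_sum_le _ _).trans (le_of_eq ?_)
    refine Finset.sum_congr rfl fun u _ => ?_
    rw [norm_mul, norm_mul, norm_e, mul_one, norm_prod]
  rw [h1]
  have h3 := holder V (fun u => ∏ s, ‖c s (u s)‖)
    (fun u => ‖F B (((p * Th b m c0 k u : ℤ) : ℝ) / L)‖) h hh
    (fun u _ => Finset.prod_nonneg fun s _ => norm_nonneg _) (fun u _ => norm_nonneg _)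
  refine (pow_le_pow_left₀ (norm_nonneg _) h2 _).trans (h3.trans ?_)
  have h4 : ∑ u ∈ V, (∏ s, ‖c s (u s)‖) ^ ((2 * h : ℝ) / (2 * h - 1)) =
      ∏ s : Fin k, ∑ u ∈ Icc (-(M : ℤ)) M, ‖c s u‖ ^ ((2 * h : ℝ) / (2 * h - 1)) := by
    rw [Finset.prod_univ_sum]
    refine Finset.sum_congr rfl fun u _ => ?_
    exact (Real.finsetProd_rpow _ _ (fun s _ => norm_nonneg _) _).symm
  rw [h4]
  refine mul_le_mul_of_nonneg_left ?_ (pow_nonneg (Finset.prod_nonneg fun s _ =>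
    Finset.sum_nonneg fun u _ => Real.rpow_nonneg (norm_nonneg _) _) _)
  have h5 : ∑ u ∈ V, ‖F B (((p * Th b m c0 k u : ℤ) : ℝ) / L)‖ ^ (2 * h) =
      ∑ u ∈ V, ‖F B (((p * Th b m c0 k u % L).toNat : ℝ) / L)‖ ^ (2 * h) := by
    refine Finset.sum_congr rfl fun u _ => ?_
    rw [F_mod B L hL0]
  rw [h5]
  have hinj : Set.InjOn (fun u => (p * Th b m c0 k u % L).toNat) (V : Set (Fin k → ℤ)) := by
    intro u hu u' hu' heq
    have hu2 := Fintype.mem_piFinset.1 (Finset.mem_coe.1 hu)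
    have hu2' := Fintype.mem_piFinset.1 (Finset.mem_coe.1 hu')
    have hpos : ((L : ℕ) : ℤ) ≠ 0 := by exact_mod_cast hL0.ne'
    have h6 : p * Th b m c0 k u % L = p * Th b m c0 k u' % L := by
      have h7 : (((p * Th b m c0 k u % L).toNat : ℕ) : ℤ) =
          (((p * Th b m c0 k u' % L).toNat : ℕ) : ℤ) := by exact_mod_cast heq
      rwa [Int.toNat_of_nonneg (Int.emod_nonneg _ hpos),
        Int.toNat_of_nonneg (Int.emod_nonneg _ hpos)] at h7
    have h8 : (L : ℤ) ∣ p * Th b m c0 k u - p * Th b m c0 k u' := Int.ModEq.dvd h6.symm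
    rw [← mul_sub, Th_sub] at h8
    have h9 := hp.dvd_of_dvd_mul_left h8
    have hvv : ∀ s, |u s - u' s| ≤ 2 * (M : ℤ) := by
      intro s
      have h9 := Finset.mem_Icc.1 (hu2 s)
      have h10 := Finset.mem_Icc.1 (hu2' s)
      rw [abs_le]
      constructor <;> omega
    have h10 := Th_abs b m c0 k M hb hm (fun s => u s - u' s) hvv
    have h11 : Th b m c0 k (fun s => u s - u' s) = 0 := by
      refine Int.eq_zero_of_abs_lt_dvd h9 (lt_of_le_of_lt h10 ?_)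
      exact_mod_cast hL
    have h12 := Th_inj b m c0 k M hb hM (fun s => u s - u' s) hvv h11
    funext s
    have h13 : u s - u' s = 0 := h12 s
    omega
  rw [← Finset.sum_image (f := fun r : ℕ => ‖F B ((r : ℝ) / L)‖ ^ (2 * h)) hinj]
  refine Finset.sum_le_sum_of_subset_of_nonneg ?_ fun _ _ _ => by positivity
  intro r hr
  rw [Finset.mem_image] at hr
  obtain ⟨u, _, rfl⟩ := hr
  rw [Finset.mem_range]
  have hpos : (0 : ℤ) < ((L : ℕ) : ℤ) := by exact_mod_cast hL0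
  have h6 := Int.emod_lt_of_pos (p * Th b m c0 k u) hpos
  have h7 := Int.emod_nonneg (p * Th b m c0 k u) hpos.ne'
  omega

theorem e_lip (x y : ℝ) : ‖e x - e y‖ ≤ 2 * Real.pi * |x - y| := by
  have h1 : e x - e y = e y * (e (x - y) - 1) := by
    rw [mul_sub, mul_one, ← e_add]
    congr 2
    ring
  rw [h1, norm_mul, norm_e, one_mul, norm_e_sub_one]
  have h2 : |Real.sin (Real.pi * (x - y))| ≤ |Real.pi * (x - y)| := Real.abs_sin_le_abs
  rw [abs_mul, abs_of_pos Real.pi_pos] at h2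
  linarith

theorem P_lip (c : ℤ → ℂ) (M : ℕ) (x y : ℝ) :
    ‖P c M x - P c M y‖ ≤ (∑ u ∈ Icc (-(M : ℤ)) M, ‖c u‖) * (2 * Real.pi * M) * |x - y| := by
  unfold P
  rw [← sum_sub_distrib, sum_mul, sum_mul]
  refine (norm_sum_le _ _).trans (sum_le_sum fun u hu => ?_)
  rw [← mul_sub, norm_mul, mul_assoc]
  refine mul_le_mul_of_nonneg_left ?_ (norm_nonneg _)
  refine (e_lip _ _).trans ?_
  rw [← mul_sub, abs_mul]
  have h1 := mem_Icc.1 hu
  have h2 : |(u : ℝ)| ≤ M := by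
    rw [abs_le]
    constructor
    · exact_mod_cast h1.1
    · exact_mod_cast h1.2
  have h3 : |(u : ℝ)| * |x - y| ≤ M * |x - y| := mul_le_mul_of_nonneg_right h2 (abs_nonneg _)
  have h4 : 0 < Real.pi := Real.pi_pos
  calc 2 * Real.pi * (|(u : ℝ)| * |x - y|) ≤ 2 * Real.pi * (M * |x - y|) :=
        mul_le_mul_of_nonneg_left h3 (by positivity)
    _ = 2 * Real.pi * M * |x - y| := by ring

end Pool.Agent.V11226.ED
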