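import Pool.Agent.V11226.ED.Freq
import Pool.Agent.V1189.SC.Cons

/-!
# The digits of `a * α + β` for the elements `a` of sets with bounded representation function
-/

set_option autoImplicit false

namespace Pool.Agent.V11226.ED

open Finset
open Pool.Agent.V11226.ET (msets msets_finite)
open Pool.Agent.V11226.ETN (tuples_le' shift)

/-- `α` is badly approximable up to `n ^ ε`. -/
def TypeOne (α : ℝ) : Prop :=
  ∀ ε : ℝ, 0 < ε → ∃ c : ℝ, 0 < c ∧ ∀ n : ℕ, 1 ≤ n → ∀ p : ℤ, c ≤ (n : ℝ) ^ (1 + ε) * |n * α - p|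

theorem typeOne_of_alg (α : ℝ) (halg : IsAlgebraic ℚ α) (hirr : Irrational α) : TypeOne α := by
  intro ε hε
  have hli : LinearIndependent ℚ (Fin.cons 1 (fun _ : Fin 1 => α) : Fin (1 + 1) → ℝ) := by
    have h1 : (Fin.cons 1 (fun _ : Fin 1 => α) : Fin (1 + 1) → ℝ) = ![1, α] := by
      funext i
      fin_cases i <;> rfl
    rw [h1, LinearIndependent.pair_iff]
    intro s t hst
    by_cases ht : t = 0
    · subst ht
      refine ⟨?_, rfl⟩
      simp at hst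
      exact_mod_cast hst
    · exfalso
      refine hirr ⟨-s / t, ?_⟩
      rw [Rat.smul_def, Rat.smul_def] at hst
      have ht' : (t : ℝ) ≠ 0 := by exact_mod_cast ht
      push_cast
      field_simp
      linarith
  obtain ⟨c, hc, hM⟩ := Pool.Agent.V1189.SC.measL 1 (fun _ : Fin 1 => α) (fun _ => halg) hli ε hε
  have hA : 0 < |α| + 1 := by positivity
  refine ⟨min 1 (c / (|α| + 1) ^ (1 + ε)), by positivity, ?_⟩
  intro n hn p
  have hn' : (1 : ℝ) ≤ n := by exact_mod_cast hn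
  rcases le_or_gt 1 |n * α - p| with h1 | h1
  · refine (min_le_left _ _).trans ?_
    have h2 : (1 : ℝ) ≤ (n : ℝ) ^ (1 + ε) := Real.one_le_rpow hn' (by linarith)
    calc (1 : ℝ) = 1 * 1 := by norm_num
      _ ≤ (n : ℝ) ^ (1 + ε) * |n * α - p| := mul_le_mul h2 h1 (by norm_num) (by positivity)
  · refine (min_le_right _ _).trans ?_
    rw [div_le_iff₀ (by positivity)]
    have h2 := hM (-p) (fun _ => (n : ℤ)) (Or.inr (fun h0 => by
      have h3 : (n : ℤ) = 0 := congrFun h0 0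
      omega)) ((n : ℝ) * (|α| + 1)) (by
        have h3 := abs_nonneg α
        nlinarith) (by
        push_cast
        rw [abs_neg]
        have h3 : |(p : ℝ)| ≤ |n * α - p| + |n * α| := by
          have h4 : (p : ℝ) = -(n * α - p) + n * α := by ring
          nth_rewrite 1 [h4]
          refine (abs_add_le _ _).trans ?_
          rw [abs_neg]
        rw [abs_mul, abs_of_nonneg (by linarith : (0 : ℝ) ≤ n)] at h3
        nlinarith [abs_nonneg α]) (by
        intro s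
        push_cast
        rw [abs_of_nonneg (by linarith : (0 : ℝ) ≤ n)]
        nlinarith [abs_nonneg α])
    simp only [Int.cast_neg, Finset.univ_unique, Int.cast_natCast, Finset.sum_const,
      Finset.card_singleton, one_smul] at h2
    rw [Real.mul_rpow (by linarith) hA.le] at h2
    have h3 : (-(p : ℝ) + n * α) = n * α - p := by ring
    rw [h3] at h2
    push_cast at h2
    calc c ≤ (n : ℝ) ^ (1 + ε) * (|α| + 1) ^ (1 + ε) * |n * α - p| := h2
      _ = (n : ℝ) ^ (1 + ε) * |n * α - p| * (|α| + 1) ^ (1 + ε) := by ring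

theorem good (α : ℝ) (hα : TypeOne α) (D : ℕ) (hD : 1 ≤ D) (τ ε : ℝ) (hτ : 0 < τ) (hε : 0 < ε) :
    ∃ N₀ : ℕ, ∀ N ≥ N₀, ∃ (L : ℕ) (p : ℤ), IsCoprime (L : ℤ) p ∧ D * N < L ∧
      (L : ℝ) ≤ 2 * (N : ℝ) ^ (1 + ε) ∧ (N : ℝ) * |α - p / L| * N ≤ τ := by
  obtain ⟨c, hc, hcN⟩ := hα (ε / 2) (by positivity)
  have hD' : (1 : ℝ) ≤ D := by exact_mod_cast hD
  have hev : ∃ N₀ : ℕ, ∀ N ≥ N₀, (D : ℝ) ^ (1 + ε / 2) * (N : ℝ) ^ (-(ε / 2)) < c ∧
      (N : ℝ) ^ (-ε) < τ := by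
    have t1 : Filter.Tendsto (fun N : ℕ => (D : ℝ) ^ (1 + ε / 2) * (N : ℝ) ^ (-(ε / 2))) Filter.atTop
        (nhds ((D : ℝ) ^ (1 + ε / 2) * 0)) :=
      ((tendsto_rpow_neg_atTop (by positivity)).comp tendsto_natCast_atTop_atTop).const_mul _
    have t2 : Filter.Tendsto (fun N : ℕ => (N : ℝ) ^ (-ε)) Filter.atTop (nhds 0) :=
      (tendsto_rpow_neg_atTop hε).comp tendsto_natCast_atTop_atTop
    rw [mul_zero] at t1
    exact Filter.eventually_atTop.1 ((t1.eventually (gt_mem_nhds hc)).and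
      (t2.eventually (gt_mem_nhds hτ)))
  obtain ⟨N₀, hN₀⟩ := hev
  refine ⟨max N₀ 1, ?_⟩
  intro N hN
  have hNN₀ : N₀ ≤ N := le_trans (le_max_left _ _) hN
  have hN1 : 1 ≤ N := le_trans (le_max_right _ _) hN
  have hN1' : (1 : ℝ) ≤ N := by exact_mod_cast hN1
  have hN0 : (0 : ℝ) < N := by linarith
  obtain ⟨e1, e2⟩ := hN₀ N hNN₀
  have hpow1 : (1 : ℝ) ≤ (N : ℝ) ^ (1 + ε) := Real.one_le_rpow hN1' (by linarith)
  set Q := ⌈(N : ℝ) ^ (1 + ε)⌉₊ with hQ
  have hQ1 : 0 < Q := Nat.ceil_pos.2 (by linarith)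
  have hQ2 : (N : ℝ) ^ (1 + ε) ≤ Q := Nat.le_ceil _
  have hQ3 : (Q : ℝ) < (N : ℝ) ^ (1 + ε) + 1 := Nat.ceil_lt_add_one (by linarith)
  obtain ⟨q, hq1, hq2⟩ := Real.exists_rat_abs_sub_le_and_den_le α hQ1
  have hden : (0 : ℝ) < q.den := by exact_mod_cast q.den_pos
  have hqc : (q : ℝ) = (q.num : ℝ) / q.den := Rat.cast_def q
  rw [hqc] at hq1
  have hlin : |(q.den : ℝ) * α - q.num| = q.den * |α - q.num / q.den| := by
    rw [← abs_of_pos hden, ← abs_mul, abs_of_pos hden]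
    congr 1
    field_simp
  have hpowN : 0 < (N : ℝ) ^ (1 + ε) := by linarith
  have hlin2 : |(q.den : ℝ) * α - q.num| ≤ 1 / (N : ℝ) ^ (1 + ε) := by
    rw [hlin]
    calc (q.den : ℝ) * |α - q.num / q.den| ≤ q.den * (1 / ((Q + 1) * q.den)) :=
          mul_le_mul_of_nonneg_left hq1 hden.le
      _ = 1 / (Q + 1) := by field_simp
      _ ≤ 1 / (N : ℝ) ^ (1 + ε) := one_div_le_one_div_of_le hpowN (by linarith)
  have hDL : D * N < q.den := by
    by_contra hcon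
    push Not at hcon
    have h1 := hcN q.den q.den_pos q.num
    have h2 : (q.den : ℝ) ≤ D * N := by exact_mod_cast hcon
    have h3 : (q.den : ℝ) ^ (1 + ε / 2) ≤ (D * N : ℝ) ^ (1 + ε / 2) :=
      Real.rpow_le_rpow hden.le h2 (by linarith)
    have h4 : (q.den : ℝ) ^ (1 + ε / 2) * |(q.den : ℝ) * α - q.num| ≤
        (D * N : ℝ) ^ (1 + ε / 2) * (1 / (N : ℝ) ^ (1 + ε)) :=
      mul_le_mul h3 hlin2 (abs_nonneg _) (by positivity)
    have h5 : (D * N : ℝ) ^ (1 + ε / 2) * (1 / (N : ℝ) ^ (1 + ε)) =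
        (D : ℝ) ^ (1 + ε / 2) * (N : ℝ) ^ (-(ε / 2)) := by
      rw [Real.mul_rpow (by linarith) hN0.le, one_div, ← Real.rpow_neg hN0.le, mul_assoc,
        ← Real.rpow_add hN0]
      congr 2
      ring
    rw [h5] at h4
    linarith
  refine ⟨q.den, q.num, ?_, hDL, ?_, ?_⟩
  · rw [Int.isCoprime_iff_gcd_eq_one]
    have h1 := q.reduced
    rw [Nat.Coprime, Nat.gcd_comm] at h1
    exact h1
  · have h1 : (q.den : ℝ) ≤ Q := by exact_mod_cast hq2
    linarith
  · have h1 : (N : ℝ) ≤ q.den := by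
      have h2 : N ≤ q.den := by
        have : 1 * N ≤ D * N := Nat.mul_le_mul_right _ hD
        omega
      exact_mod_cast h2
    have h2 : |α - q.num / q.den| ≤ 1 / ((N : ℝ) ^ (1 + ε) * N) := by
      refine hq1.trans (one_div_le_one_div_of_le (by positivity) ?_)
      exact mul_le_mul (by linarith) h1 hN0.le (by positivity)
    calc (N : ℝ) * |α - q.num / q.den| * N ≤ N * (1 / ((N : ℝ) ^ (1 + ε) * N)) * N := by
          refine mul_le_mul_of_nonneg_right ?_ hN0.le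
          exact mul_le_mul_of_nonneg_left h2 hN0.le
      _ = (N : ℝ) ^ (-ε) := by
          rw [Real.rpow_add hN0, Real.rpow_one, Real.rpow_neg hN0.le]
          field_simp
      _ ≤ τ := e2.le

/-- The block of `l` digits of `a α + β` after the first `i` digits after the point agrees with `z i`
at a proportion of the places `i < log_b N` which differs from `b ^ (-l)` by at most `η`. -/
def TypD (b l : ℕ) (z : ℕ → ℕ) (α β η : ℝ) (N a : ℕ) : Prop :=
  |(agrR b l z (Nat.log b N) ((a : ℝ) * α + β) : ℝ) / Nat.log b N - 1 / (b : ℝ) ^ l| ≤ η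

theorem mainD (b l h : ℕ) (hb : 2 ≤ b) (hh : 0 < h) (η : ℝ) (hη : 0 < η) :
    ∃ δ : ℝ, 0 < δ ∧ ∀ α : ℝ, TypeOne α → ∃ C : ℝ, 0 < C ∧
      ∀ (z : ℕ → ℕ) (β : ℝ) (A : Set ℕ) (K N : ℕ), (∀ i, z i < b ^ l) → 1 ≤ N →
      (∀ n ≤ h * N, (msets A h n).ncard ≤ K) →
      (({x | x ∈ A ∧ ¬ TypD b l z α β η N x ∧ x ≤ N} : Set ℕ).ncard : ℝ) ^ h ≤
        C * K * (N : ℝ) ^ (1 - δ) := by
  classical
  have hb' : (2 : ℝ) ≤ b := by exact_mod_cast hb
  have hb1 : (1 : ℝ) < b := by linarith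
  have hlogb : 0 < Real.log b := Real.log_pos hb1
  have hq0 : 0 < b ^ l := by positivity
  have hηq : 0 < η / (b : ℝ) ^ l := by positivity
  obtain ⟨n0, D, hn0, hD, C₀, κ, τ, hC₀, hκ, hτ, H⟩ := upperD b l h hb hh (η / (b : ℝ) ^ l) hηq
  set δ : ℝ := κ / (2 * Real.log b) with hδdef
  have hδ : 0 < δ := by positivity
  refine ⟨δ, hδ, ?_⟩
  intro α hα
  obtain ⟨N₀, hN₀⟩ := good α hα D hD τ δ hτ hδ
  set N₁ : ℕ := max N₀ (b ^ n0) with hN₁
  have hN₁1 : 1 ≤ N₁ := le_trans (Nat.one_le_pow _ _ (by omega)) (le_max_right _ _)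
  have hN₁' : (1 : ℝ) ≤ N₁ := by exact_mod_cast hN₁1
  refine ⟨((b : ℝ) ^ l) ^ h * C₀ * h.factorial * 2 * Real.exp κ + (2 * N₁ : ℝ) ^ h * (N₁ : ℝ) ^ δ,
    by positivity, ?_⟩
  intro z β A K N hz hN hK
  have hN1' : (1 : ℝ) ≤ N := by exact_mod_cast hN
  have hN0 : (0 : ℝ) < N := by linarith
  set X : Set ℕ := {x | x ∈ A ∧ ¬ TypD b l z α β η N x ∧ x ≤ N} with hX
  have hfin : X.Finite := (Set.finite_Iic N).subset fun x hx => hx.2.2
  set T := hfin.toFinset with hT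
  have hTmem : ∀ a ∈ T, a ∈ A ∧ ¬ TypD b l z α β η N a ∧ a ≤ N := fun a ha =>
    (Set.Finite.mem_toFinset hfin).1 ha
  rw [Set.ncard_eq_toFinset_card _ hfin, ← hT]
  rcases T.eq_empty_or_nonempty with hTe | ⟨a₀, ha₀⟩
  · rw [hTe, Finset.card_empty, Nat.cast_zero, zero_pow hh.ne']
    positivity
  have hK1 : 1 ≤ K := by
    refine le_trans ?_ (hK (h * a₀) (Nat.mul_le_mul_left _ (hTmem a₀ ha₀).2.2))
    rw [Nat.succ_le_iff, Set.ncard_pos (msets_finite A h _)]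
    refine ⟨Multiset.replicate h a₀, by simp, ?_, by simp⟩
    intro z hz
    rw [Multiset.eq_of_mem_replicate hz]
    exact (hTmem a₀ ha₀).1
  have hK1' : (1 : ℝ) ≤ K := by exact_mod_cast hK1
  rcases Nat.lt_or_ge N N₁ with hsmall | hlarge
  · have h1 : T.card ≤ 2 * N₁ := by
      have h2 : T ⊆ range (N + 1) := fun a ha => Finset.mem_range.2
        (Nat.lt_succ_of_le (hTmem a ha).2.2)
      have h3 := Finset.card_le_card h2
      rw [Finset.card_range] at h3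
      omega
    have h2 : (T.card : ℝ) ^ h ≤ (2 * N₁ : ℝ) ^ h := by
      refine pow_le_pow_left₀ (by positivity) ?_ _
      exact_mod_cast h1
    have h3 : (1 : ℝ) ≤ (N₁ : ℝ) ^ δ * (N : ℝ) ^ (1 - δ) := by
      have h4 : (N : ℝ) ^ δ ≤ (N₁ : ℝ) ^ δ := by
        refine Real.rpow_le_rpow hN0.le ?_ hδ.le
        exact_mod_cast hsmall.le
      calc (1 : ℝ) ≤ N := hN1'
        _ = (N : ℝ) ^ δ * (N : ℝ) ^ (1 - δ) := by
            rw [← Real.rpow_add hN0]
            have : δ + (1 - δ) = 1 := by ring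
            rw [this, Real.rpow_one]
        _ ≤ (N₁ : ℝ) ^ δ * (N : ℝ) ^ (1 - δ) := mul_le_mul_of_nonneg_right h4 (by positivity)
    calc (T.card : ℝ) ^ h ≤ (2 * N₁ : ℝ) ^ h * 1 * 1 := by linarith
      _ ≤ (2 * N₁ : ℝ) ^ h * K * ((N₁ : ℝ) ^ δ * (N : ℝ) ^ (1 - δ)) := by gcongr
      _ = ((2 * N₁ : ℝ) ^ h * (N₁ : ℝ) ^ δ) * K * (N : ℝ) ^ (1 - δ) := by ring
      _ ≤ _ := by
          refine mul_le_mul_of_nonneg_right ?_ (by positivity)
          refine mul_le_mul_of_nonneg_right ?_ (by positivity)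
          have : 0 ≤ ((b : ℝ) ^ l) ^ h * C₀ * h.factorial * 2 * Real.exp κ := by positivity
          linarith
  · have hNN₀ : N₀ ≤ N := le_trans (le_max_left _ _) hlarge
    have hNb : b ^ n0 ≤ N := le_trans (le_max_right _ _) hlarge
    obtain ⟨L, p, hcop, hDL, hL2, happ⟩ := hN₀ N hNN₀
    set n := Nat.log b N with hn
    have hn0n : n0 ≤ n := (Nat.le_log_iff_pow_le (by omega) (by omega)).2 hNb
    have hbn : b ^ n ≤ N := Nat.pow_log_le_self b (by omega)
    have hbn' : (b : ℝ) ^ n ≤ N := by exact_mod_cast hbn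
    let Tw : ℕ → Finset ℕ := fun j => T.filter (fun a =>
      (1 / (b : ℝ) ^ l + η / (b : ℝ) ^ l) * n ≤ agrR b l (shift (b ^ l) z j) n ((a : ℝ) * α + β))
    have hcover : T ⊆ (range (b ^ l)).biUnion Tw := by
      intro a ha
      have h1 := (hTmem a ha).2.1
      unfold TypD at h1
      push Not at h1
      obtain ⟨j, hj, h3⟩ := exists_upperG b l n hb (by omega) η hη z hz _ h1
      rw [Finset.mem_biUnion]
      exact ⟨j, Finset.mem_range.2 hj, Finset.mem_filter.2 ⟨ha, h3⟩⟩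
    have hTw : ∀ j < b ^ l, ((Tw j).card : ℝ) ^ h ≤
        C₀ * (h.factorial * K) * (L * Real.exp (-(κ * n))) := by
      intro j hj
      have h1 := H (shift (b ^ l) z j) n L (h.factorial * K) p (Tw j) α β
        (fun i => Nat.mod_lt _ hq0) hn0n (lt_of_le_of_lt (Nat.mul_le_mul_left _ hbn) hDL) hcop
        (by
          intro a ha
          have h2 := (hTmem a (Finset.mem_filter.1 ha).1).2.2
          have h3 : 1 * N ≤ D * N := Nat.mul_le_mul_right _ hD
          omega) (by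
          intro a ha
          have h2 : (a : ℝ) ≤ N := by exact_mod_cast (hTmem a (Finset.mem_filter.1 ha).1).2.2
          refine le_trans ?_ happ
          refine mul_le_mul ?_ hbn' (by positivity) (mul_nonneg hN0.le (abs_nonneg _))
          exact mul_le_mul_of_nonneg_right h2 (abs_nonneg _))
        (fun s => tuples_le' A h K N (Tw j) (by
          intro a ha
          have h2 := hTmem a (Finset.mem_filter.1 ha).1
          exact ⟨h2.1, h2.2.2⟩) hK s) (by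
          intro a ha
          exact (Finset.mem_filter.1 ha).2)
      refine h1.trans (le_of_eq ?_)
      push_cast
      ring
    obtain ⟨w, hw, hwB⟩ : ∃ w < b ^ l, T.card ≤ b ^ l * (Tw w).card := by
      by_contra hno
      push Not at hno
      have h1 := (Finset.card_le_card hcover).trans Finset.card_biUnion_le
      have h2 : b ^ l * T.card ≤ b ^ l * ∑ c ∈ range (b ^ l), (Tw c).card :=
        Nat.mul_le_mul_left _ h1
      rw [Finset.mul_sum] at h2
      have h3 : ∑ c ∈ range (b ^ l), b ^ l * (Tw c).card < ∑ _c ∈ range (b ^ l), T.card := by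
        refine Finset.sum_lt_sum_of_nonempty ⟨0, Finset.mem_range.2 hq0⟩ ?_
        intro c hc
        exact hno c (Finset.mem_range.1 hc)
      rw [Finset.sum_const, Finset.card_range, smul_eq_mul] at h3
      omega
    have hexp : Real.exp (-(κ * n)) ≤ Real.exp κ * (N : ℝ) ^ (-(2 * δ)) := by
      rw [Real.rpow_def_of_pos hN0, ← Real.exp_add]
      refine Real.exp_le_exp.2 ?_
      have h1 : (N : ℝ) < (b : ℝ) ^ (n + 1) := by
        exact_mod_cast Nat.lt_pow_succ_log_self (by omega) N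
      have h2 : Real.log N ≤ (n + 1) * Real.log b := by
        have h3 := Real.log_le_log hN0 h1.le
        rw [Real.log_pow] at h3
        push_cast at h3
        exact h3
      have h3 : 2 * δ = κ / Real.log b := by
        rw [hδdef]; field_simp
      rw [h3]
      have h4 : κ / Real.log b * Real.log N ≤ κ / Real.log b * ((n + 1) * Real.log b) :=
        mul_le_mul_of_nonneg_left h2 (by positivity)
      have h5 : κ / Real.log b * ((n + 1) * Real.log b) = κ * n + κ := by field_simp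
      linarith
    have hLexp : (L : ℝ) * Real.exp (-(κ * n)) ≤ 2 * Real.exp κ * (N : ℝ) ^ (1 - δ) := by
      calc (L : ℝ) * Real.exp (-(κ * n)) ≤ (2 * (N : ℝ) ^ (1 + δ)) *
            (Real.exp κ * (N : ℝ) ^ (-(2 * δ))) :=
            mul_le_mul hL2 hexp (Real.exp_pos _).le (by positivity)
        _ = 2 * Real.exp κ * ((N : ℝ) ^ (1 + δ) * (N : ℝ) ^ (-(2 * δ))) := by ring
        _ = 2 * Real.exp κ * (N : ℝ) ^ (1 - δ) := by
            rw [← Real.rpow_add hN0]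
            congr 2
            ring
    calc (T.card : ℝ) ^ h ≤ ((b : ℝ) ^ l * (Tw w).card) ^ h := by
          refine pow_le_pow_left₀ (by positivity) ?_ _
          exact_mod_cast hwB
      _ = ((b : ℝ) ^ l) ^ h * ((Tw w).card : ℝ) ^ h := by rw [mul_pow]
      _ ≤ ((b : ℝ) ^ l) ^ h * (C₀ * (h.factorial * K) * (L * Real.exp (-(κ * n)))) :=
          mul_le_mul_of_nonneg_left (hTw w hw) (by positivity)
      _ ≤ ((b : ℝ) ^ l) ^ h * (C₀ * (h.factorial * K) * (2 * Real.exp κ * (N : ℝ) ^ (1 - δ))) := by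
          refine mul_le_mul_of_nonneg_left ?_ (by positivity)
          exact mul_le_mul_of_nonneg_left hLexp (by positivity)
      _ = (((b : ℝ) ^ l) ^ h * C₀ * h.factorial * 2 * Real.exp κ) * K * (N : ℝ) ^ (1 - δ) := by ring
      _ ≤ _ := by
          refine mul_le_mul_of_nonneg_right ?_ (by positivity)
          refine mul_le_mul_of_nonneg_right ?_ (by positivity)
          have : 0 ≤ (2 * N₁ : ℝ) ^ h * (N₁ : ℝ) ^ δ := by positivity
          linarith

/-- The dichotomy for sets with at least `c N ^ (1/h)` elements up to `N`. -/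
theorem dichotomyD (b l h : ℕ) (hb : 2 ≤ b) (hh : 0 < h) (η : ℝ) (hη : 0 < η) :
    ∃ δ : ℝ, 0 < δ ∧ ∀ α : ℝ, TypeOne α → ∀ (A : Set ℕ) (c : ℝ), 0 < c →
      (∃ N₁ : ℕ, ∀ N ≥ N₁, c * (N : ℝ) ^ (1 / h : ℝ) ≤ ({x | x ∈ A ∧ x ≤ N} : Set ℕ).ncard) →
      (∀ M : ℕ, ∃ n ≥ M, (n : ℝ) ^ δ ≤ (msets A h n).ncard) ∨
      ∃ N₀ : ℕ, ∀ N ≥ N₀, ∀ (z : ℕ → ℕ) (β : ℝ), (∀ i, z i < b ^ l) →
        (({x | x ∈ A ∧ ¬ TypD b l z α β η N x ∧ x ≤ N} : Set ℕ).ncard : ℝ) ≤
          (N : ℝ) ^ (-δ) * ({x | x ∈ A ∧ x ≤ N} : Set ℕ).ncard := by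
  obtain ⟨δ₁, hδ₁, H'⟩ := mainD b l h hb hh η hη
  have hh' : (1 : ℝ) ≤ h := by exact_mod_cast hh
  set δ : ℝ := δ₁ / (2 * (h + 1)) with hδdef
  have hδ : 0 < δ := by positivity
  refine ⟨δ, hδ, ?_⟩
  intro α hα A c hc hA
  obtain ⟨C, hC, H⟩ := H' α hα
  by_cases hr : ∀ M : ℕ, ∃ n ≥ M, (n : ℝ) ^ δ ≤ (msets A h n).ncard
  · exact Or.inl hr
  right
  push Not at hr
  obtain ⟨M, hM⟩ := hr
  obtain ⟨N₁, hN₁⟩ := hA
  set R : ℕ := ∑ n ∈ range M, (msets A h n).ncard with hR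
  -- the bound for the representation function
  have hrep : ∀ N : ℕ, 1 ≤ N → ∀ n ≤ h * N,
      (msets A h n).ncard ≤ ⌊(R : ℝ) + ((h : ℝ) * N) ^ δ⌋₊ := by
    intro N hN n hn
    refine Nat.le_floor ?_
    have h0 : (0 : ℝ) ≤ ((h : ℝ) * N) ^ δ := by positivity
    rcases Nat.lt_or_ge n M with hnM | hnM
    · have h1 : (msets A h n).ncard ≤ R :=
        Finset.single_le_sum (f := fun n => (msets A h n).ncard) (fun _ _ => Nat.zero_le _)
          (Finset.mem_range.2 hnM)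
      have h2 : ((msets A h n).ncard : ℝ) ≤ R := by exact_mod_cast h1
      linarith
    · have h1 := (hM n hnM).le
      have h2 : (n : ℝ) ^ δ ≤ ((h : ℝ) * N) ^ δ := by
        refine Real.rpow_le_rpow (Nat.cast_nonneg _) ?_ hδ.le
        exact_mod_cast hn
      have h3 : (0 : ℝ) ≤ R := Nat.cast_nonneg _
      linarith
  -- large `N`
  set D : ℝ := C * (R + (h : ℝ) ^ δ) with hD
  have hD0 : 0 ≤ D := by positivity
  obtain ⟨N₂, hN₂⟩ : ∃ N₂ : ℕ, ∀ N ≥ N₂, D * (N : ℝ) ^ (-(δ₁ / 2)) ≤ c ^ h := by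
    have t1 : Filter.Tendsto (fun N : ℕ => D * (N : ℝ) ^ (-(δ₁ / 2))) Filter.atTop
        (nhds (D * 0)) :=
      ((tendsto_rpow_neg_atTop (by positivity)).comp tendsto_natCast_atTop_atTop).const_mul D
    rw [mul_zero] at t1
    have h1 := (t1.eventually (gt_mem_nhds (show (0 : ℝ) < c ^ h by positivity)))
    obtain ⟨N₂, hN₂⟩ := Filter.eventually_atTop.1 h1
    exact ⟨N₂, fun N hN => (hN₂ N hN).le⟩
  refine ⟨max (max N₁ N₂) 1, ?_⟩
  intro N hN z β hz
  have hNN₁ : N₁ ≤ N := le_trans (le_trans (le_max_left _ _) (le_max_left _ _)) hN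
  have hNN₂ : N₂ ≤ N := le_trans (le_trans (le_max_right _ _) (le_max_left _ _)) hN
  have hN1 : 1 ≤ N := le_trans (le_max_right _ _) hN
  have hN1' : (1 : ℝ) ≤ N := by exact_mod_cast hN1
  have hN0 : (0 : ℝ) < N := by linarith
  have h1 := H z β A ⌊(R : ℝ) + ((h : ℝ) * N) ^ δ⌋₊ N hz hN1 (hrep N hN1)
  have h2 : (⌊(R : ℝ) + ((h : ℝ) * N) ^ δ⌋₊ : ℝ) ≤ (R + (h : ℝ) ^ δ) * (N : ℝ) ^ δ := by
    refine (Nat.floor_le (by positivity)).trans ?_
    rw [Real.mul_rpow (by positivity) hN0.le, add_mul]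
    have h3 : (1 : ℝ) ≤ (N : ℝ) ^ δ := Real.one_le_rpow hN1' hδ.le
    have h4 : (R : ℝ) ≤ R * (N : ℝ) ^ δ := le_mul_of_one_le_right (Nat.cast_nonneg _) h3
    linarith
  have h3 : (({x | x ∈ A ∧ ¬ TypD b l z α β η N x ∧ x ≤ N} : Set ℕ).ncard : ℝ) ^ h ≤
      D * (N : ℝ) ^ (-(δ₁ / 2)) * (N : ℝ) ^ (1 - h * δ) := by
    refine h1.trans ?_
    calc C * (⌊(R : ℝ) + ((h : ℝ) * N) ^ δ⌋₊ : ℝ) * (N : ℝ) ^ (1 - δ₁) ≤
        C * ((R + (h : ℝ) ^ δ) * (N : ℝ) ^ δ) * (N : ℝ) ^ (1 - δ₁) := by gcongr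
      _ = D * ((N : ℝ) ^ δ * (N : ℝ) ^ (1 - δ₁)) := by rw [hD]; ring
      _ = D * ((N : ℝ) ^ (-(δ₁ / 2)) * (N : ℝ) ^ (1 - h * δ)) := by
          rw [← Real.rpow_add hN0, ← Real.rpow_add hN0]
          congr 2
          rw [hδdef]
          field_simp
          ring
      _ = _ := by ring
  have h4 : (c * (N : ℝ) ^ (1 / h : ℝ) * (N : ℝ) ^ (-δ)) ^ h = c ^ h * (N : ℝ) ^ (1 - h * δ) := by
    rw [mul_pow, mul_pow, one_div, Real.rpow_inv_natCast_pow hN0.le (by omega), mul_assoc,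
      ← Real.rpow_natCast ((N : ℝ) ^ (-δ)), ← Real.rpow_mul hN0.le]
    congr 1
    nth_rewrite 1 [← Real.rpow_one (N : ℝ)]
    rw [← Real.rpow_add hN0]
    congr 1; ring
  have h5 : (({x | x ∈ A ∧ ¬ TypD b l z α β η N x ∧ x ≤ N} : Set ℕ).ncard : ℝ) ≤
      c * (N : ℝ) ^ (1 / h : ℝ) * (N : ℝ) ^ (-δ) := by
    refine le_of_pow_le_pow_left₀ (n := h) hh.ne' (by positivity) ?_
    rw [h4]
    refine h3.trans ?_
    exact mul_le_mul_of_nonneg_right (hN₂ N hNN₂) (by positivity)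
  refine h5.trans ?_
  rw [mul_comm]
  exact mul_le_mul_of_nonneg_left (hN₁ N hNN₁) (by positivity)

end Pool.Agent.V11226.ED
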