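import Pool.Agent.V11226.ED.Freq

/-!
# Recurrent frequencies of the words in the expansions of `a * α + β`
-/

set_option autoImplicit false

namespace Pool.Agent.V11226.ED

open Finset
open Pool.Agent.V11226.ET (msets msets_finite)
open Pool.Agent.V11226.ETN (tuples_le' shift)

/-- There are arbitrarily large `s` such that `b ^ s * α` has no good approximation with a small
denominator. -/
theorem noSmall (b : ℕ) (hb : 2 ≤ b) (α : ℝ) (hα : Irrational α) (Q : ℕ) (ρ : ℝ) (hρ : 0 < ρ)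
    (hρQ : (b + 1) * Q * ρ < 1) (s0 : ℕ) :
    ∃ s ≥ s0, ∀ q : ℕ, 1 ≤ q → q ≤ Q → ∀ p : ℤ, ρ ≤ |q * ((b : ℝ) ^ s * α) - p| := by
  by_contra hcon
  push Not at hcon
  have hb' : (2 : ℝ) ≤ b := by exact_mod_cast hb
  have H : ∀ j : ℕ, ∃ q : ℕ, 1 ≤ q ∧ q ≤ Q ∧ ∃ p : ℤ, |q * ((b : ℝ) ^ (s0 + j) * α) - p| < ρ := by
    intro j
    obtain ⟨q, h1, h2, p, h3⟩ := hcon (s0 + j) (by omega)
    exact ⟨q, h1, h2, p, h3⟩
  choose q hq1 hqQ p hp using H
  have hq0 : ∀ j, (0 : ℝ) < q j := fun j => by exact_mod_cast hq1 j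
  have hq1' : ∀ j, (1 : ℝ) ≤ q j := fun j => by exact_mod_cast hq1 j
  have hqQ' : ∀ j, (q j : ℝ) ≤ Q := fun j => by exact_mod_cast hqQ j
  have hstep : ∀ j, (p (j + 1) : ℝ) / q (j + 1) = b * ((p j : ℝ) / q j) := by
    intro j
    set x : ℝ := (b : ℝ) ^ (s0 + j) * α with hx
    have hx1 : (b : ℝ) ^ (s0 + (j + 1)) * α = b * x := by
      rw [hx, ← add_assoc, pow_succ]; ring
    have h1 := hp j
    have h2 := hp (j + 1)
    rw [hx1] at h2
    rw [← hx] at h1
    have h3 : |((q j * p (j + 1) - q (j + 1) * (b * p j) : ℤ) : ℝ)| < 1 := by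
      have h4 : ((q j * p (j + 1) - q (j + 1) * (b * p j) : ℤ) : ℝ) =
          (q (j + 1) : ℝ) * b * (q j * x - p j) - q j * (q (j + 1) * (b * x) - p (j + 1)) := by
        push_cast
        ring
      rw [h4]
      refine lt_of_le_of_lt (abs_sub _ _) ?_
      have e1 : |(q (j + 1) : ℝ) * b * (q j * x - p j)| = (q (j + 1) : ℝ) * b * |q j * x - p j| := by
        rw [abs_mul, abs_of_nonneg (by positivity : (0 : ℝ) ≤ (q (j + 1) : ℝ) * b)]
      have e2 : |(q j : ℝ) * (q (j + 1) * (b * x) - p (j + 1))| =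
          (q j : ℝ) * |q (j + 1) * (b * x) - p (j + 1)| := by
        rw [abs_mul, abs_of_nonneg (hq0 j).le]
      rw [e1, e2]
      have h5 : (q (j + 1) : ℝ) * b * |(q j : ℝ) * x - p j| ≤ Q * b * ρ := by
        refine mul_le_mul ?_ h1.le (abs_nonneg _) (by positivity)
        exact mul_le_mul_of_nonneg_right (hqQ' _) (by linarith)
      have h6 : (q j : ℝ) * |(q (j + 1) : ℝ) * (b * x) - p (j + 1)| ≤ Q * ρ :=
        mul_le_mul (hqQ' _) h2.le (abs_nonneg _) (by positivity)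
      have h7 : (Q : ℝ) * b * ρ + Q * ρ = (b + 1) * Q * ρ := by ring
      linarith
    have h4 : (q j * p (j + 1) - q (j + 1) * (b * p j) : ℤ) = 0 := by
      have h5 : |(q j * p (j + 1) - q (j + 1) * (b * p j) : ℤ)| < 1 := by exact_mod_cast h3
      exact Int.abs_lt_one_iff.1 h5
    have h5 : (q j : ℝ) * p (j + 1) - q (j + 1) * (b * p j) = 0 := by exact_mod_cast h4
    have h6 := (hq0 j).ne'
    have h7 := (hq0 (j + 1)).ne'
    field_simp
    linarith
  have hpow : ∀ j, (p j : ℝ) / q j = (b : ℝ) ^ j * ((p 0 : ℝ) / q 0) := by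
    intro j
    induction j with
    | zero => simp
    | succ j ih => rw [hstep, ih, pow_succ]; ring
  set y : ℝ := (p 0 : ℝ) / q 0 with hy
  have hclose : ∀ j, (b : ℝ) ^ j * |(b : ℝ) ^ s0 * α - y| ≤ ρ := by
    intro j
    have h1 : |(b : ℝ) ^ (s0 + j) * α - p j / q j| ≤ ρ := by
      have h2 : (b : ℝ) ^ (s0 + j) * α - p j / q j = (q j * ((b : ℝ) ^ (s0 + j) * α) - p j) / q j := by
        have := (hq0 j).ne'
        field_simp
      rw [h2, abs_div, abs_of_pos (hq0 j), div_le_iff₀ (hq0 j)]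
      have h3 := hp j
      nlinarith [hq1' j]
    rw [hpow] at h1
    have h2 : (b : ℝ) ^ (s0 + j) * α - (b : ℝ) ^ j * y = (b : ℝ) ^ j * ((b : ℝ) ^ s0 * α - y) := by
      rw [pow_add]; ring
    rw [h2, abs_mul, abs_of_nonneg (by positivity : (0 : ℝ) ≤ (b : ℝ) ^ j)] at h1
    exact h1
  have hzero : (b : ℝ) ^ s0 * α - y = 0 := by
    by_contra hne
    have hpos : 0 < |(b : ℝ) ^ s0 * α - y| := abs_pos.2 hne
    obtain ⟨j, hj⟩ := pow_unbounded_of_one_lt (ρ / |(b : ℝ) ^ s0 * α - y|)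
      (by linarith : (1 : ℝ) < b)
    rw [div_lt_iff₀ hpos] at hj
    have := hclose j
    linarith
  have hbp : (b : ℝ) ^ s0 ≠ 0 := by positivity
  refine hα ⟨(p 0 : ℚ) / q 0 / (b : ℚ) ^ s0, ?_⟩
  push_cast
  rw [div_eq_iff hbp]
  linarith

theorem goodS (b : ℕ) (hb : 2 ≤ b) (D : ℕ) (hD : 1 ≤ D) (τ ε : ℝ) (hτ : 0 < τ) (hε : 0 < ε) :
    ∃ N₀ : ℕ, ∀ N ≥ N₀, ∀ α : ℝ, Irrational α → ∀ s0 : ℕ, ∃ s ≥ s0, ∃ (L : ℕ) (p : ℤ),
      IsCoprime (L : ℤ) p ∧ D * N < L ∧ (L : ℝ) ≤ 2 * (N : ℝ) ^ (1 + ε) ∧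
      (N : ℝ) * |(b : ℝ) ^ s * α - p / L| * N ≤ τ := by
  have hD' : (1 : ℝ) ≤ D := by exact_mod_cast hD
  have hb' : (2 : ℝ) ≤ b := by exact_mod_cast hb
  have hev : ∃ N₀ : ℕ, ∀ N ≥ N₀, ((b : ℝ) + 1) * D * (N : ℝ) ^ (-ε) < 1 ∧
      (N : ℝ) ^ (-ε) < τ := by
    have t2 : Filter.Tendsto (fun N : ℕ => (N : ℝ) ^ (-ε)) Filter.atTop (nhds 0) :=
      (tendsto_rpow_neg_atTop hε).comp tendsto_natCast_atTop_atTop
    have t1 : Filter.Tendsto (fun N : ℕ => ((b : ℝ) + 1) * D * (N : ℝ) ^ (-ε)) Filter.atTop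
        (nhds (((b : ℝ) + 1) * D * 0)) := t2.const_mul _
    rw [mul_zero] at t1
    exact Filter.eventually_atTop.1 ((t1.eventually (gt_mem_nhds one_pos)).and
      (t2.eventually (gt_mem_nhds hτ)))
  obtain ⟨N₀, hN₀⟩ := hev
  refine ⟨max N₀ 1, ?_⟩
  intro N hN α hα s0
  have hNN₀ : N₀ ≤ N := le_trans (le_max_left _ _) hN
  have hN1 : 1 ≤ N := le_trans (le_max_right _ _) hN
  have hN1' : (1 : ℝ) ≤ N := by exact_mod_cast hN1
  have hN0 : (0 : ℝ) < N := by linarith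
  obtain ⟨e1, e2⟩ := hN₀ N hNN₀
  have hpow1 : (1 : ℝ) ≤ (N : ℝ) ^ (1 + ε) := Real.one_le_rpow hN1' (by linarith)
  have hpowN : 0 < (N : ℝ) ^ (1 + ε) := by linarith
  obtain ⟨s, hs, hns⟩ := noSmall b hb α hα (D * N) (1 / (N : ℝ) ^ (1 + ε)) (by positivity) (by
    have h1 : ((b : ℝ) + 1) * (D * N : ℕ) * (1 / (N : ℝ) ^ (1 + ε)) =
        ((b : ℝ) + 1) * D * (N : ℝ) ^ (-ε) := by
      push_cast
      rw [Real.rpow_add hN0, Real.rpow_one, Real.rpow_neg hN0.le]
      field_simp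
    rw [h1]
    exact e1) s0
  refine ⟨s, hs, ?_⟩
  set x : ℝ := (b : ℝ) ^ s * α with hx
  set Q := ⌈(N : ℝ) ^ (1 + ε)⌉₊ with hQ
  have hQ1 : 0 < Q := Nat.ceil_pos.2 (by linarith)
  have hQ2 : (N : ℝ) ^ (1 + ε) ≤ Q := Nat.le_ceil _
  have hQ3 : (Q : ℝ) < (N : ℝ) ^ (1 + ε) + 1 := Nat.ceil_lt_add_one (by linarith)
  obtain ⟨q, hq1, hq2⟩ := Real.exists_rat_abs_sub_le_and_den_le x hQ1
  have hden : (0 : ℝ) < q.den := by exact_mod_cast q.den_pos
  have hqc : (q : ℝ) = (q.num : ℝ) / q.den := Rat.cast_def q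
  rw [hqc] at hq1
  have hlin : |(q.den : ℝ) * x - q.num| = q.den * |x - q.num / q.den| := by
    rw [← abs_of_pos hden, ← abs_mul, abs_of_pos hden]
    congr 1
    field_simp
  have hlin2 : |(q.den : ℝ) * x - q.num| < 1 / (N : ℝ) ^ (1 + ε) := by
    rw [hlin]
    calc (q.den : ℝ) * |x - q.num / q.den| ≤ q.den * (1 / ((Q + 1) * q.den)) :=
          mul_le_mul_of_nonneg_left hq1 hden.le
      _ = 1 / (Q + 1) := by field_simp
      _ < 1 / (N : ℝ) ^ (1 + ε) := one_div_lt_one_div_of_lt hpowN (by linarith)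
  have hDL : D * N < q.den := by
    by_contra hcon
    push Not at hcon
    have h1 := hns q.den q.den_pos hcon q.num
    linarith
  refine ⟨q.den, q.num, ?_, hDL, ?_, ?_⟩
  · rw [Int.isCoprime_iff_gcd_eq_one]
    have h1 := q.reduced
    rw [Nat.Coprime, Nat.gcd_comm] at h1
    exact h1
  · have h1 : (q.den : ℝ) ≤ Q := by exact_mod_cast hq2
    linarith
  · have h1 : (N : ℝ) ≤ q.den := by
      have h2 : N ≤ q.den := by
        have : 1 * N ≤ D * N := Nat.mul_le_mul_right _ hD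
        omega
      exact_mod_cast h2
    have h2 : |x - q.num / q.den| ≤ 1 / ((N : ℝ) ^ (1 + ε) * N) := by
      refine hq1.trans (one_div_le_one_div_of_le (by positivity) ?_)
      exact mul_le_mul (by linarith) h1 hN0.le (by positivity)
    calc (N : ℝ) * |x - q.num / q.den| * N ≤ N * (1 / ((N : ℝ) ^ (1 + ε) * N)) * N := by
          refine mul_le_mul_of_nonneg_right ?_ hN0.le
          exact mul_le_mul_of_nonneg_left h2 hN0.le
      _ = (N : ℝ) ^ (-ε) := by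
          rw [Real.rpow_add hN0, Real.rpow_one, Real.rpow_neg hN0.le]
          field_simp
      _ ≤ τ := e2.le

/-- For arbitrarily large `s` every word of `l` digits has nearly the right frequency at the places
`s, …, s + n - 1` of `x`. -/
def RecW (b l : ℕ) (η : ℝ) (n : ℕ) (x : ℝ) : Prop :=
  ∀ s0 : ℕ, ∃ s ≥ s0, ∀ w < b ^ l,
    |(agrR b l (fun _ => w) n ((b : ℝ) ^ s * x) : ℝ) / n - 1 / (b : ℝ) ^ l| ≤ η

theorem mainS (b l h : ℕ) (hb : 2 ≤ b) (hh : 0 < h) (η : ℝ) (hη : 0 < η) :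
    ∃ δ C : ℝ, 0 < δ ∧ 0 < C ∧ ∀ (α : ℝ), Irrational α →
      ∀ (β : ℝ) (A : Set ℕ) (K N : ℕ), 1 ≤ N →
      (∀ n ≤ h * N, (msets A h n).ncard ≤ K) →
      (({x | x ∈ A ∧ ¬ RecW b l η (Nat.log b N) ((x : ℝ) * α + β) ∧ x ≤ N} : Set ℕ).ncard : ℝ) ^ h ≤
        C * K * (N : ℝ) ^ (1 - δ) := by
  classical
  have hb' : (2 : ℝ) ≤ b := by exact_mod_cast hb
  have hb1 : (1 : ℝ) < b := by linarith
  have hlogb : 0 < Real.log b := Real.log_pos hb1
  have hq0 : 0 < b ^ l := by positivity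
  have hηq : 0 < η / (b : ℝ) ^ l := by positivity
  obtain ⟨n0, D, hn0, hD, C₀, κ, τ, hC₀, hκ, hτ, H⟩ := upperD b l h hb hh (η / (b : ℝ) ^ l) hηq
  set δ : ℝ := κ / (2 * Real.log b) with hδdef
  have hδ : 0 < δ := by positivity
  obtain ⟨N₀, hN₀⟩ := goodS b hb D hD τ δ hτ hδ
  set N₁ : ℕ := max N₀ (b ^ n0) with hN₁
  have hN₁1 : 1 ≤ N₁ := le_trans (Nat.one_le_pow _ _ (by omega)) (le_max_right _ _)
  have hN₁' : (1 : ℝ) ≤ N₁ := by exact_mod_cast hN₁1
  refine ⟨δ, ((b : ℝ) ^ l) ^ h * C₀ * h.factorial * 2 * Real.exp κ + (2 * N₁ : ℝ) ^ h * (N₁ : ℝ) ^ δ,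
    hδ, by positivity, ?_⟩
  intro α hα β A K N hN hK
  have hN1' : (1 : ℝ) ≤ N := by exact_mod_cast hN
  have hN0 : (0 : ℝ) < N := by linarith
  set X : Set ℕ := {x | x ∈ A ∧ ¬ RecW b l η (Nat.log b N) ((x : ℝ) * α + β) ∧ x ≤ N} with hX
  have hfin : X.Finite := (Set.finite_Iic N).subset fun x hx => hx.2.2
  set T := hfin.toFinset with hT
  have hTmem : ∀ a ∈ T, a ∈ A ∧ ¬ RecW b l η (Nat.log b N) ((a : ℝ) * α + β) ∧ a ≤ N := fun a ha =>
    (Set.Finite.mem_toFinset hfin).1 ha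
  rw [Set.ncard_eq_toFinset_card _ hfin, ← hT]
  rcases T.eq_empty_or_nonempty with hTe | ⟨a₀, ha₀⟩
  · rw [hTe, Finset.card_empty, Nat.cast_zero, zero_pow hh.ne']
    positivity
  have hK1 : 1 ≤ K := by
    refine le_trans ?_ (hK (h * a₀) (Nat.mul_le_mul_left _ (hTmem a₀ ha₀).2.2))
    rw [Nat.succ_le_iff, Set.ncard_pos (msets_finite A h _)]
    refine ⟨Multiset.replicate h a₀, by simp, ?_, by simp⟩
    intro z hz
    rw [Multiset.eq_of_mem_replicate hz]
    exact (hTmem a₀ ha₀).1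
  have hK1' : (1 : ℝ) ≤ K := by exact_mod_cast hK1
  rcases Nat.lt_or_ge N N₁ with hsmall | hlarge
  · have h1 : T.card ≤ 2 * N₁ := by
      have h2 : T ⊆ range (N + 1) := fun a ha => Finset.mem_range.2
        (Nat.lt_succ_of_le (hTmem a ha).2.2)
      have h3 := Finset.card_le_card h2
      rw [Finset.card_range] at h3
      omega
    have h2 : (T.card : ℝ) ^ h ≤ (2 * N₁ : ℝ) ^ h := by
      refine pow_le_pow_left₀ (by positivity) ?_ _
      exact_mod_cast h1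
    have h3 : (1 : ℝ) ≤ (N₁ : ℝ) ^ δ * (N : ℝ) ^ (1 - δ) := by
      have h4 : (N : ℝ) ^ δ ≤ (N₁ : ℝ) ^ δ := by
        refine Real.rpow_le_rpow hN0.le ?_ hδ.le
        exact_mod_cast hsmall.le
      calc (1 : ℝ) ≤ N := hN1'
        _ = (N : ℝ) ^ δ * (N : ℝ) ^ (1 - δ) := by
            rw [← Real.rpow_add hN0]
            have : δ + (1 - δ) = 1 := by ring
            rw [this, Real.rpow_one]
        _ ≤ (N₁ : ℝ) ^ δ * (N : ℝ) ^ (1 - δ) := mul_le_mul_of_nonneg_right h4 (by positivity)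
    calc (T.card : ℝ) ^ h ≤ (2 * N₁ : ℝ) ^ h * 1 * 1 := by linarith
      _ ≤ (2 * N₁ : ℝ) ^ h * K * ((N₁ : ℝ) ^ δ * (N : ℝ) ^ (1 - δ)) := by gcongr
      _ = ((2 * N₁ : ℝ) ^ h * (N₁ : ℝ) ^ δ) * K * (N : ℝ) ^ (1 - δ) := by ring
      _ ≤ _ := by
          refine mul_le_mul_of_nonneg_right ?_ (by positivity)
          refine mul_le_mul_of_nonneg_right ?_ (by positivity)
          have : 0 ≤ ((b : ℝ) ^ l) ^ h * C₀ * h.factorial * 2 * Real.exp κ := by positivity
          linarith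
  · have hNN₀ : N₀ ≤ N := le_trans (le_max_left _ _) hlarge
    have hNb : b ^ n0 ≤ N := le_trans (le_max_right _ _) hlarge
    set n := Nat.log b N with hn
    -- the last bad window
    have hlast : ∀ a ∈ T, ∃ s0 : ℕ, ∀ s ≥ s0, ∃ w < b ^ l,
        η < |(agrR b l (fun _ => w) n ((b : ℝ) ^ s * ((a : ℝ) * α + β)) : ℝ) / n -
          1 / (b : ℝ) ^ l| := by
      intro a ha
      have h1 := (hTmem a ha).2.1
      unfold RecW at h1
      push Not at h1
      exact h1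
    choose! S hS using hlast
    obtain ⟨s, hs, L, p, hcop, hDL, hL2, happ⟩ := hN₀ N hNN₀ α hα (T.sup S)
    have hn0n : n0 ≤ n := (Nat.le_log_iff_pow_le (by omega) (by omega)).2 hNb
    have hbn : b ^ n ≤ N := Nat.pow_log_le_self b (by omega)
    have hbn' : (b : ℝ) ^ n ≤ N := by exact_mod_cast hbn
    have hlin : ∀ a : ℕ, (b : ℝ) ^ s * ((a : ℝ) * α + β) =
        (a : ℝ) * ((b : ℝ) ^ s * α) + (b : ℝ) ^ s * β := fun a => by ring
    let Tw : ℕ → Finset ℕ := fun j => T.filter (fun a =>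
      (1 / (b : ℝ) ^ l + η / (b : ℝ) ^ l) * n ≤
        agrR b l (fun _ => j) n ((a : ℝ) * ((b : ℝ) ^ s * α) + (b : ℝ) ^ s * β))
    have hcover : T ⊆ (range (b ^ l)).biUnion Tw := by
      intro a ha
      obtain ⟨w, hw, h1⟩ := hS a ha s (le_trans (Finset.le_sup (f := S) ha) hs)
      rw [hlin] at h1
      obtain ⟨j, hj, h3⟩ := exists_upperG b l n hb (by omega) η hη (fun _ => w) (fun _ => hw) _ h1
      rw [Finset.mem_biUnion]
      refine ⟨(w + j) % b ^ l, Finset.mem_range.2 (Nat.mod_lt _ hq0), Finset.mem_filter.2 ⟨ha, ?_⟩⟩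
      exact h3
    have hTw : ∀ j < b ^ l, ((Tw j).card : ℝ) ^ h ≤
        C₀ * (h.factorial * K) * (L * Real.exp (-(κ * n))) := by
      intro j hj
      have h1 := H (fun _ => j) n L (h.factorial * K) p (Tw j) ((b : ℝ) ^ s * α) ((b : ℝ) ^ s * β)
        (fun i => hj) hn0n (lt_of_le_of_lt (Nat.mul_le_mul_left _ hbn) hDL) hcop
        (by
          intro a ha
          have h2 := (hTmem a (Finset.mem_filter.1 ha).1).2.2
          have h3 : 1 * N ≤ D * N := Nat.mul_le_mul_right _ hD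
          omega) (by
          intro a ha
          have h2 : (a : ℝ) ≤ N := by exact_mod_cast (hTmem a (Finset.mem_filter.1 ha).1).2.2
          refine le_trans ?_ happ
          refine mul_le_mul ?_ hbn' (by positivity) (mul_nonneg hN0.le (abs_nonneg _))
          exact mul_le_mul_of_nonneg_right h2 (abs_nonneg _))
        (fun s => tuples_le' A h K N (Tw j) (by
          intro a ha
          have h2 := hTmem a (Finset.mem_filter.1 ha).1
          exact ⟨h2.1, h2.2.2⟩) hK s) (by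
          intro a ha
          exact (Finset.mem_filter.1 ha).2)
      refine h1.trans (le_of_eq ?_)
      push_cast
      ring
    obtain ⟨w, hw, hwB⟩ : ∃ w < b ^ l, T.card ≤ b ^ l * (Tw w).card := by
      by_contra hno
      push Not at hno
      have h1 := (Finset.card_le_card hcover).trans Finset.card_biUnion_le
      have h2 : b ^ l * T.card ≤ b ^ l * ∑ c ∈ range (b ^ l), (Tw c).card :=
        Nat.mul_le_mul_left _ h1
      rw [Finset.mul_sum] at h2
      have h3 : ∑ c ∈ range (b ^ l), b ^ l * (Tw c).card < ∑ _c ∈ range (b ^ l), T.card := by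
        refine Finset.sum_lt_sum_of_nonempty ⟨0, Finset.mem_range.2 hq0⟩ ?_
        intro c hc
        exact hno c (Finset.mem_range.1 hc)
      rw [Finset.sum_const, Finset.card_range, smul_eq_mul] at h3
      omega
    have hexp : Real.exp (-(κ * n)) ≤ Real.exp κ * (N : ℝ) ^ (-(2 * δ)) := by
      rw [Real.rpow_def_of_pos hN0, ← Real.exp_add]
      refine Real.exp_le_exp.2 ?_
      have h1 : (N : ℝ) < (b : ℝ) ^ (n + 1) := by
        exact_mod_cast Nat.lt_pow_succ_log_self (by omega) N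
      have h2 : Real.log N ≤ (n + 1) * Real.log b := by
        have h3 := Real.log_le_log hN0 h1.le
        rw [Real.log_pow] at h3
        push_cast at h3
        exact h3
      have h3 : 2 * δ = κ / Real.log b := by
        rw [hδdef]; field_simp
      rw [h3]
      have h4 : κ / Real.log b * Real.log N ≤ κ / Real.log b * ((n + 1) * Real.log b) :=
        mul_le_mul_of_nonneg_left h2 (by positivity)
      have h5 : κ / Real.log b * ((n + 1) * Real.log b) = κ * n + κ := by field_simp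
      linarith
    have hLexp : (L : ℝ) * Real.exp (-(κ * n)) ≤ 2 * Real.exp κ * (N : ℝ) ^ (1 - δ) := by
      calc (L : ℝ) * Real.exp (-(κ * n)) ≤ (2 * (N : ℝ) ^ (1 + δ)) *
            (Real.exp κ * (N : ℝ) ^ (-(2 * δ))) :=
            mul_le_mul hL2 hexp (Real.exp_pos _).le (by positivity)
        _ = 2 * Real.exp κ * ((N : ℝ) ^ (1 + δ) * (N : ℝ) ^ (-(2 * δ))) := by ring
        _ = 2 * Real.exp κ * (N : ℝ) ^ (1 - δ) := by
            rw [← Real.rpow_add hN0]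
            congr 2
            ring
    calc (T.card : ℝ) ^ h ≤ ((b : ℝ) ^ l * (Tw w).card) ^ h := by
          refine pow_le_pow_left₀ (by positivity) ?_ _
          exact_mod_cast hwB
      _ = ((b : ℝ) ^ l) ^ h * ((Tw w).card : ℝ) ^ h := by rw [mul_pow]
      _ ≤ ((b : ℝ) ^ l) ^ h * (C₀ * (h.factorial * K) * (L * Real.exp (-(κ * n)))) :=
          mul_le_mul_of_nonneg_left (hTw w hw) (by positivity)
      _ ≤ ((b : ℝ) ^ l) ^ h * (C₀ * (h.factorial * K) * (2 * Real.exp κ * (N : ℝ) ^ (1 - δ))) := by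
          refine mul_le_mul_of_nonneg_left ?_ (by positivity)
          exact mul_le_mul_of_nonneg_left hLexp (by positivity)
      _ = (((b : ℝ) ^ l) ^ h * C₀ * h.factorial * 2 * Real.exp κ) * K * (N : ℝ) ^ (1 - δ) := by ring
      _ ≤ _ := by
          refine mul_le_mul_of_nonneg_right ?_ (by positivity)
          refine mul_le_mul_of_nonneg_right ?_ (by positivity)
          have : 0 ≤ (2 * N₁ : ℝ) ^ h * (N₁ : ℝ) ^ δ := by positivity
          linarith

end Pool.Agent.V11226.ED
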